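import Pool.Agent.H73.NP.T

set_option autoImplicit false

namespace Pool.Agent.H73.NP

open Pool.Agent.H76.SW

theorem gv_zero {k n : ℕ} (i : Fin n) : gv i (0 : Fin (k + 3)) = Sum.inl i.castSucc := by
  simp [gv]

theorem gv_last {k n : ℕ} (i : Fin n) : gv i (Fin.last (k + 2)) = Sum.inl i.succ := by
  have : (Fin.last (k + 2)) ≠ (0 : Fin (k + 3)) := by
    intro h
    have := congrArg Fin.val h
    simp at this
  simp [gv, this]

theorem gv_mid {k n : ℕ} (i : Fin n) (s : Fin (k + 3)) (h0 : (s : ℕ) ≠ 0)
    (h1 : (s : ℕ) ≤ k + 1) : gv i s = Sum.inr (i, s) := by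
  have a0 : s ≠ 0 := by
    intro h
    apply h0
    rw [h]
    rfl
  have a1 : s ≠ Fin.last (k + 2) := by
    intro h
    rw [h] at h1
    simp at h1
  simp [gv, a0, a1]

/-- The variable `1`. -/
def v1 (k : ℕ) : Fin (k + 3) := ⟨1, by omega⟩

/-- The variable `2`. -/
def v2 (k : ℕ) : Fin (k + 3) := ⟨2, by omega⟩

theorem cE_gad {A : Type} {k : ℕ} {w : List (Lt A k)} {i : Fin w.length} (h : w.get i = bt)
    (s t : Fin (k + 3)) (hst : GE k (s, t)) : cE w (gv i s) (Sum.inr (s, t)) (gv i t) :=
  ⟨i, h, hst, rfl, rfl⟩

theorem cE_let {A : Type} {k : ℕ} {w : List (Lt A k)} {i : Fin w.length} {a : A}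
    (h : w.get i = lt a) : cE w (Sum.inl i.castSucc) (Sum.inl a) (Sum.inl i.succ) :=
  ⟨i, h, rfl, rfl⟩

theorem ni_gv {A : Type} {k : ℕ} {w : List (Lt A k)} {i : Fin w.length}
    (h : w.get i = bt) (s : Fin (k + 3)) : ∃ l v, cE w (gv i s) l v ∨ cE w v l (gv i s) := by
  by_cases h1 : (s : ℕ) = 0
  · refine ⟨_, _, Or.inl (cE_gad h s (v1 k) ⟨?_, Or.inl ?_⟩)⟩
    · rw [Fin.lt_def]
      simp [v1, h1]
    · simp [v1]
  · by_cases h2 : (s : ℕ) ≤ k + 1
    · exact ⟨_, _, Or.inr (cE_gad h 0 s ⟨Nat.pos_of_ne_zero h1, Or.inl h2⟩)⟩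
    · refine ⟨_, _, Or.inr (cE_gad h (v1 k) s ⟨?_, Or.inr (Or.inl rfl)⟩)⟩
      rw [Fin.lt_def]
      simp [v1]
      omega

theorem pf_CHN : N_CHN := by
  classical
  intro A C k hk w hw ad hsym c hc hi
  have hOk : ∀ i : Fin w.length, w.get i = bt ∨ ∃ a, w.get i = lt a :=
    fun i => hw _ (List.get_mem w i)
  have nis : ∀ i : Fin w.length, ∃ l v, cE w (Sum.inl i.castSucc) l v ∨
      cE w v l (Sum.inl i.castSucc) := by
    intro i
    rcases hOk i with h | ⟨a, h⟩
    · have := ni_gv h (0 : Fin (k + 3))
      rwa [gv_zero] at this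
    · exact ⟨_, _, Or.inl (cE_let h)⟩
  have nit : ∀ i : Fin w.length, ∃ l v, cE w (Sum.inl i.succ) l v ∨
      cE w v l (Sum.inl i.succ) := by
    intro i
    rcases hOk i with h | ⟨a, h⟩
    · have := ni_gv h (Fin.last (k + 2))
      rwa [gv_last] at this
    · exact ⟨_, _, Or.inr (cE_let h)⟩
  have gvinj : ∀ (i j : Fin w.length) (s t : Fin (k + 3)), (s : ℕ) ≤ k + 1 → (t : ℕ) ≤ k + 1 →
      (gv i s : Vx k w.length) = gv j t → i = j ∧ s = t := by
    intro i j s t hs ht h
    by_cases hs0 : (s : ℕ) = 0
    · have es : s = 0 := Fin.ext hs0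
      by_cases ht0 : (t : ℕ) = 0
      · have et : t = 0 := Fin.ext ht0
        subst es et
        rw [gv_zero, gv_zero] at h
        exact ⟨Fin.castSucc_injective _ (Sum.inl_injective h), rfl⟩
      · subst es
        rw [gv_zero, gv_mid j t ht0 ht] at h
        cases h
    · by_cases ht0 : (t : ℕ) = 0
      · have et : t = 0 := Fin.ext ht0
        subst et
        rw [gv_zero, gv_mid i s hs0 hs] at h
        cases h
      · rw [gv_mid i s hs0 hs, gv_mid j t ht0 ht] at h
        have := Sum.inr_injective h
        exact ⟨(Prod.mk.inj this).1, (Prod.mk.inj this).2⟩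
  refine ⟨?_, ?_, ?_⟩
  · intro i hib
    refine ⟨?_, ?_⟩
    · have himg : KK w c i = (fun s : Fin (k + 2) => c (gv i s.castSucc)) '' Set.univ := by
        ext x
        constructor
        · rintro ⟨s, hs, rfl⟩
          exact ⟨⟨s, by omega⟩, Set.mem_univ _, rfl⟩
        · rintro ⟨s, -, rfl⟩
          exact ⟨s.castSucc, by simp; omega, rfl⟩
      rw [himg, Set.ncard_image_of_injective, Set.ncard_univ, Nat.card_fin]
      intro s t hst
      have h1 := hi _ _ (ni_gv hib s.castSucc) (ni_gv hib t.castSucc) hst
      have h2 := (gvinj i i _ _ (by simp; omega) (by simp; omega) h1).2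
      exact Fin.castSucc_injective _ h2
    · rintro x ⟨s, hs, rfl⟩ y ⟨t, ht, rfl⟩ hxy
      rcases lt_trichotomy s t with h | h | h
      · exact hc _ _ _ (cE_gad hib s t ⟨h, Or.inl ht⟩)
      · exact (hxy (by rw [h])).elim
      · exact hsym _ _ (hc _ _ _ (cE_gad hib t s ⟨h, Or.inl hs⟩))
  · intro i j hib hjb hij
    rw [Set.disjoint_left]
    rintro x ⟨s, hs, rfl⟩ ⟨t, ht, h⟩
    exact hij (gvinj i j s t hs ht (hi _ _ (ni_gv hib s) (ni_gv hjb t) h)).1
  · intro i j hib hjb I B hcl hBK hB2 hKI
    have notin : ∀ u : Vx k w.length, (∃ l v, cE w u l v ∨ cE w v l u) →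
        (∀ s : Fin (k + 3), (s : ℕ) ≤ k + 1 → u ≠ gv i s) → c u ∉ B := by
      intro u hu hne hmem
      obtain ⟨s, hs, hsu⟩ := hBK hmem
      exact hne s hs (hi _ _ hu (ni_gv hib s) hsu)
    have notpos : ∀ (m : Fin (w.length + 1)), m ≠ i.castSucc → ∀ s : Fin (k + 3),
        (s : ℕ) ≤ k + 1 → (Sum.inl m : Vx k w.length) ≠ gv i s := by
      intro m hm s hs h
      by_cases hs0 : (s : ℕ) = 0
      · have es : s = 0 := Fin.ext hs0
        subst es
        rw [gv_zero] at h
        exact hm (Sum.inl_injective h)
      · rw [gv_mid i s hs0 hs] at h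
        cases h
    have fill : ∀ j' : Fin w.length, w.get j' = bt → j' ≠ i →
        c (Sum.inl j'.castSucc) ∈ I → KK w c j' ⊆ I := by
      rintro j' hj' hne hmem x ⟨s, hs, rfl⟩
      by_cases hs0 : (s : ℕ) = 0
      · have es : s = 0 := Fin.ext hs0
        subst es
        rw [gv_zero]
        exact hmem
      · refine hcl _ hmem _ ?_ (notin _ (ni_gv hj' s) fun t ht h => hne (gvinj _ _ _ _ hs ht h).1)
        have := hc _ _ _ (cE_gad hj' 0 s ⟨Nat.pos_of_ne_zero hs0, Or.inl hs⟩)
        rwa [gv_zero] at this
    have one_mem : ∀ j' : Fin w.length, w.get j' = bt → j' ≠ i →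
        c (Sum.inl j'.castSucc) ∈ I → c (gv j' (v1 k)) ∈ I := by
      intro j' hj' hne hmem
      exact fill j' hj' hne hmem ⟨v1 k, by simp [v1], rfl⟩
    have hGE1 : GE k (v1 k, Fin.last (k + 2)) :=
      ⟨by rw [Fin.lt_def]; simp [v1], Or.inr (Or.inl rfl)⟩
    have hGE2 : GE k (v2 k, Fin.last (k + 2)) :=
      ⟨by rw [Fin.lt_def]; simp [v2]; omega, Or.inr (Or.inr rfl)⟩
    refine ⟨?_, ?_⟩
    · intro hx hij
      -- the first position to the right
      have base : c (Sum.inl i.succ) ∈ I := by
        have hex : ∃ t : Fin (k + 3), (t = v1 k ∨ t = v2 k) ∧ c (gv i t) ∉ B := by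
          by_contra hcon
          push Not at hcon
          have m1 := hcon _ (Or.inl rfl)
          have m2 := hcon _ (Or.inr rfl)
          have hx' : c (gv i (0 : Fin (k + 3))) ∈ B := by rw [gv_zero]; exact hx
          obtain ⟨a, b, hab⟩ := hB2
          have d01 : c (gv i (0 : Fin (k + 3))) ≠ c (gv i (v1 k)) := by
            intro h
            have := (gvinj i i _ _ (by simp) (by simp [v1])
              (hi _ _ (ni_gv hib _) (ni_gv hib _) h)).2
            have := congrArg Fin.val this
            simp [v1] at this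
          have d02 : c (gv i (0 : Fin (k + 3))) ≠ c (gv i (v2 k)) := by
            intro h
            have := (gvinj i i _ _ (by simp) (by simp [v2]; omega)
              (hi _ _ (ni_gv hib _) (ni_gv hib _) h)).2
            have := congrArg Fin.val this
            simp [v2] at this
          have d12 : c (gv i (v1 k)) ≠ c (gv i (v2 k)) := by
            intro h
            have := (gvinj i i _ _ (by simp [v1]) (by simp [v2]; omega)
              (hi _ _ (ni_gv hib _) (ni_gv hib _) h)).2
            have := congrArg Fin.val this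
            simp [v1, v2] at this
          have q0 := hab hx'
          have q1 := hab m1
          have q2 := hab m2
          simp only [Set.mem_insert_iff, Set.mem_singleton_iff] at q0 q1 q2
          rcases q0 with q0 | q0 <;> rcases q1 with q1 | q1 <;> rcases q2 with q2 | q2
          · exact d01 (q0.trans q1.symm)
          · exact d01 (q0.trans q1.symm)
          · exact d02 (q0.trans q2.symm)
          · exact d12 (q1.trans q2.symm)
          · exact d12 (q1.trans q2.symm)
          · exact d02 (q0.trans q2.symm)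
          · exact d01 (q0.trans q1.symm)
          · exact d01 (q0.trans q1.symm)
        obtain ⟨t, ht, htB⟩ := hex
        have htk : (t : ℕ) ≤ k + 1 := by
          rcases ht with rfl | rfl
          · simp [v1]
          · simp [v2]; omega
        have htI : c (gv i t) ∈ I := hKI ⟨⟨t, htk, rfl⟩, htB⟩
        have hadj : ad (c (gv i t)) (c (Sum.inl i.succ)) := by
          rw [← gv_last (k := k)]
          rcases ht with rfl | rfl
          · exact hc _ _ _ (cE_gad hib _ _ hGE1)
          · exact hc _ _ _ (cE_gad hib _ _ hGE2)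
        refine hcl _ htI _ hadj (notin _ (nit i) (notpos _ ?_))
        intro h
        have := congrArg Fin.val h
        simp at this
      have all : ∀ m : ℕ, ∀ hm : m < w.length, (i : ℕ) < m →
          c (Sum.inl (⟨m, hm⟩ : Fin w.length).castSucc) ∈ I := by
        intro m
        induction m with
        | zero => intro _ h; omega
        | succ m ih =>
          intro hm him
          by_cases him' : (i : ℕ) = m
          · have : (⟨m + 1, hm⟩ : Fin w.length).castSucc = i.succ := by
              apply Fin.ext
              simp [him']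
            rw [this]
            exact base
          · have hprev := ih (by omega) (by omega)
            have hne : (⟨m, by omega⟩ : Fin w.length) ≠ i := by
              intro h
              exact him' (congrArg Fin.val h).symm
            have esucc : (⟨m + 1, hm⟩ : Fin w.length).castSucc =
                (⟨m, by omega⟩ : Fin w.length).succ := rfl
            rw [esucc]
            have hnot : c (Sum.inl (⟨m, by omega⟩ : Fin w.length).succ) ∉ B := by
              refine notin _ (nit _) (notpos _ ?_)
              intro h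
              have := congrArg Fin.val h
              simp at this
              omega
            rcases hOk ⟨m, by omega⟩ with h | ⟨a, h⟩
            · have h1 := one_mem _ h hne hprev
              refine hcl _ h1 _ ?_ hnot
              rw [← gv_last (k := k)]
              exact hc _ _ _ (cE_gad h _ _ hGE1)
            · exact hcl _ hprev _ (hc _ _ _ (cE_let h)) hnot
      exact fill j hjb (ne_of_gt hij) (all j.1 j.2 hij)
    · intro hx hji
      have base : c (Sum.inl i.castSucc) ∈ I :=
        hKI ⟨⟨0, by simp, by rw [gv_zero]⟩, hx⟩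
      have all : ∀ d : ℕ, ∀ m : ℕ, ∀ hm : m < w.length, m + d = (i : ℕ) →
          c (Sum.inl (⟨m, hm⟩ : Fin w.length).castSucc) ∈ I := by
        intro d
        induction d with
        | zero =>
          intro m hm hd
          have : (⟨m, hm⟩ : Fin w.length) = i := Fin.ext (by simpa using hd)
          rw [this]
          exact base
        | succ d ih =>
          intro m hm hd
          have hm1 : m + 1 < w.length := by
            have := i.2
            omega
          have hnext := ih (m + 1) hm1 (by omega)
          have esucc : (⟨m + 1, hm1⟩ : Fin w.length).castSucc =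
              (⟨m, hm⟩ : Fin w.length).succ := rfl
          rw [esucc] at hnext
          have hne : (⟨m, hm⟩ : Fin w.length) ≠ i := by
            intro h
            have := congrArg Fin.val h
            simp at this
            omega
          have hnot : c (Sum.inl (⟨m, hm⟩ : Fin w.length).castSucc) ∉ B := by
            refine notin _ (nis _) (notpos _ ?_)
            intro h
            exact hne (Fin.castSucc_injective _ h)
          rcases hOk ⟨m, hm⟩ with h | ⟨a, h⟩
          · have h1 : c (gv ⟨m, hm⟩ (v1 k)) ∈ I := by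
              refine hcl _ hnext _ ?_ (notin _ (ni_gv h _) fun t ht h' =>
                hne (gvinj _ _ _ _ (by simp [v1]) ht h').1)
              rw [← gv_last (k := k)]
              exact hsym _ _ (hc _ _ _ (cE_gad h _ _ hGE1))
            refine hcl _ h1 _ ?_ hnot
            rw [← gv_zero (k := k)]
            exact hsym _ _ (hc _ _ _ (cE_gad h 0 (v1 k)
              ⟨by rw [Fin.lt_def]; simp [v1], Or.inl (by simp [v1])⟩))
          · exact hcl _ hnext _ (hsym _ _ (hc _ _ _ (cE_let h))) hnot
      exact fill j hjb (ne_of_lt hji) (all (i.1 - j.1) j.1 j.2 (by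
        have : j.1 < i.1 := hji
        omega))

end Pool.Agent.H73.NP
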