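import Pool.Agent.H73.NP.T
import Pool.Agent.H76.SW.All

set_option autoImplicit false

namespace Pool.Agent.H73.NP

open Pool.Agent.H76.SW Pool.Agent.H76.SWAll Relation

theorem sub_Vs (h1 : N_SEP) {A P : Type} (gs : P → Option (A × Bool) → P → Prop) (hs : Symm gs)
    (T : Term A) (ι : T.Pos → P) (ho : Occ gs T ι) (K : Set (Cv gs))
    (hc : ∀ x ∈ K, ∀ y ∈ K, x ≠ y → adj gs x y) (hn : (K ∩ In gs T ι).Nonempty) :
    K ⊆ Vs gs T ι := by
  obtain ⟨x, hx, hx2⟩ := hn
  intro y hy
  by_cases hxy : x = y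
  · subst hxy
    exact hx2.1
  · exact (h1 gs hs T ι ho).2 x hx2 y (hc x hx y hy hxy)

theorem right (h1 : N_SEP) (h2 : N_CHD) (h3 : N_CPT) {A P : Type}
    (gs : P → Option (A × Bool) → P → Prop) (hs : Symm gs) (k : ℕ)
    {J : Type} [LinearOrder J] (K : J → Set (Cv gs)) (g : J → Set (Cv gs) → Prop)
    (e1 : ∀ i, (K i).ncard = k + 2) (e2 : ∀ i, ∀ x ∈ K i, ∀ y ∈ K i, x ≠ y → adj gs x y)
    (e4 : ∀ (i : J) (I B : Set (Cv gs)), (∀ x ∈ I, ∀ y, adj gs x y → y ∉ B → y ∈ I) →
      B ⊆ K i → (∃ a b, B ⊆ {a, b}) → K i \ B ⊆ I → g i B → ∀ j, i < j → K j ⊆ I)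
    (T : Term A) : T.Width k → ∀ (ι : T.Pos → P), Occ gs T ι → ∀ i,
      (K i ∩ In gs T ι).Nonempty → RC gs (K i) (g i) T ι → ∀ j, i < j → K j ⊆ In gs T ι := by
  induction T with
  | edge a => intro _ ι _ i _ h; exact h.elim
  | node n m src tgt ch p q ih =>
    intro hT ι ho i hn hrc j hij
    rcases hrc with ⟨he, hg⟩ | ⟨e, hne, hrc⟩
    · have hV := sub_Vs h1 gs hs _ ι ho (K i) (e2 i) hn
      refine e4 i (In gs _ ι) (Bd gs _ ι) ?_ (h3 gs hs ho hT.1 (K i) (e1 i) (e2 i) hn he) ?_ ?_ hg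
        j hij
      · intro x hx y hxy hy
        exact ⟨(h1 gs hs _ ι ho).2 x hx y hxy, hy⟩
      · refine ⟨cl gs (ι (Term.pt _ false)), cl gs (ι (Term.pt _ true)), ?_⟩
        rintro x ⟨b, rfl⟩
        cases b
        · exact Or.inl rfl
        · exact Or.inr rfl
      · intro x hx
        exact ⟨hV hx.1, hx.2⟩
    · exact (ih e (hT.2 e) _ (ok_U_s4_child gs ho e) i hne hrc j hij).trans
        (h2 gs hs ho e).1

theorem pf_CNT (h1 : N_SEP) (h2 : N_CHD) (h3 : N_CPT) : N_CNT := by
  classical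
  intro A P gs hs k hk J _ K g e1 e2 e3 e4 T
  induction T with
  | edge a =>
    intro _ ι _ S hS
    rcases S.eq_empty_or_nonempty with rfl | ⟨i, hi⟩
    · simp
    · exact (hS i hi).2.elim
  | node n m src tgt ch p q ih =>
    intro hT ι ho S hS
    have hdisj : ∀ (e e' : Fin m) (x : Cv gs),
        x ∈ In gs (ch e) (fun x => ι (Sum.inr ⟨e, x⟩)) →
        x ∈ In gs (ch e') (fun x => ι (Sum.inr ⟨e', x⟩)) → e' = e := by
      intro e e' x hx hx'
      by_contra hne
      exact Set.disjoint_left.mp ((h2 gs hs ho e).2.2.2.1 e' hne) hx hx'.1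
    have hKn : ∀ j, (K j).Nonempty := by
      intro j
      by_contra hcon
      have := e1 j
      rw [Set.not_nonempty_iff_eq_empty.mp hcon, Set.ncard_empty] at this
      omega
    have down : ∀ (S' : Finset J) (i0 : J) (e : Fin m), S' ⊆ S → (∀ j ∈ S', i0 ≤ j) →
        (K i0 ∩ In gs (ch e) (fun x => ι (Sum.inr ⟨e, x⟩))).Nonempty →
        RC gs (K i0) (g i0) (ch e) (fun x => ι (Sum.inr ⟨e, x⟩)) → S'.card ≤ dp (ch e) := by
      intro S' i0 e hsub hmin hne hrc
      refine ih e (hT.2 e) _ (ok_U_s4_child gs ho e) S' ?_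
      intro j hj
      rcases (hmin j hj).eq_or_lt with rfl | hlt
      · exact ⟨hne, hrc⟩
      · have hin := right h1 h2 h3 gs hs k K g e1 e2 e4 (ch e) (hT.2 e) _
          (ok_U_s4_child gs ho e) i0 hne hrc j hlt
        obtain ⟨y, hy⟩ := hKn j
        rcases (hS j (hsub hj)).2 with ⟨he, -⟩ | ⟨e', ⟨x, hx, hx'⟩, hrc'⟩
        · exfalso
          have : y ∈ K j ∩ In gs (ch e) (fun x => ι (Sum.inr ⟨e, x⟩)) := ⟨hy, hin hy⟩
          rw [he e] at this
          exact this
        · have hee := hdisj e e' x (hin hx) hx'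
          subst hee
          exact ⟨⟨x, hx, hx'⟩, hrc'⟩
    have hsup : ∀ e : Fin m, 1 + dp (ch e) ≤ dp (Term.node n m src tgt ch p q) := by
      intro e
      change 1 + dp (ch e) ≤ 1 + Finset.univ.sup fun i => dp (ch i)
      exact Nat.add_le_add_left (Finset.le_sup (f := fun i => dp (ch i)) (Finset.mem_univ e)) 1
    have hpos : 1 ≤ dp (Term.node n m src tgt ch p q) := by
      change 1 ≤ 1 + Finset.univ.sup fun i => dp (ch i)
      exact Nat.le_add_right _ _
    rcases S.eq_empty_or_nonempty with rfl | hSn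
    · simp
    · set i := S.min' hSn with hi
      have hiS : i ∈ S := S.min'_mem hSn
      have hmin : ∀ j ∈ S, i ≤ j := fun j hj => S.min'_le j hj
      rcases (hS i hiS).2 with ⟨he, hg⟩ | ⟨e, hne, hrc⟩
      · have hB : Bd gs (Term.node n m src tgt ch p q) ι ⊆ K i :=
          h3 gs hs ho hT.1 (K i) (e1 i) (e2 i) (hS i hiS).1 he
        have hBn : (Bd gs (Term.node n m src tgt ch p q) ι).Nonempty := ⟨_, false, rfl⟩
        have hother : ∀ j ∈ S.erase i, ∃ e,
            (K j ∩ In gs (ch e) (fun x => ι (Sum.inr ⟨e, x⟩))).Nonempty ∧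
            RC gs (K j) (g j) (ch e) (fun x => ι (Sum.inr ⟨e, x⟩)) := by
          intro j hj
          rcases (hS j (Finset.mem_of_mem_erase hj)).2 with ⟨he', -⟩ | h
          · exfalso
            have hB' : Bd gs (Term.node n m src tgt ch p q) ι ⊆ K j :=
              h3 gs hs ho hT.1 (K j) (e1 j) (e2 j) (hS j (Finset.mem_of_mem_erase hj)).1 he'
            obtain ⟨x, hx⟩ := hBn
            exact Set.disjoint_left.mp (e3 i j (Finset.ne_of_mem_erase hj).symm) (hB hx) (hB' hx)
          · exact h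
        have hcard : S.card = (S.erase i).card + 1 := (Finset.card_erase_add_one hiS).symm
        rcases (S.erase i).eq_empty_or_nonempty with hem | hne
        · rw [hcard, hem]
          simpa using hpos
        · obtain ⟨e, hn0, hrc0⟩ := hother _ ((S.erase i).min'_mem hne)
          have := down (S.erase i) _ e (Finset.erase_subset _ _)
            (fun j hj => (S.erase i).min'_le j hj) hn0 hrc0
          have := hsup e
          omega
      · have := down S i e (Finset.Subset.refl _) hmin hne hrc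
        have := hsup e
        omega

end Pool.Agent.H73.NP
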