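import Pool.Agent.H73.NP.T
import Pool.Agent.H76.SW.All

set_option autoImplicit false

namespace Pool.Agent.H73.NP

open Pool.Agent.H76.SW Pool.Agent.H76.SWAll Relation
open scoped Classical in

theorem nb_le_card {A : Type} {k : ℕ} (w : List (Lt A k)) (hw : ∀ l ∈ w, Ok l) :
    nb w ≤ Fintype.card {i : Fin w.length // w.get i = bt} := by
  have h1 : nb w = ((List.finRange w.length).countP fun i => (w.get i).1.isRight) := by
    unfold nb
    conv_lhs => rw [← List.ofFn_get w, List.ofFn_eq_map]
    rw [List.countP_map]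
    rfl
  rw [h1, List.countP_eq_length_filter, Fintype.card_subtype]
  have h2 : ((List.finRange w.length).filter fun i => (w.get i).1.isRight).length =
      ((List.finRange w.length).filter fun i => (w.get i).1.isRight).toFinset.card := by
    rw [List.toFinset_card_of_nodup]
    exact (List.nodup_finRange _).filter _
  rw [h2]
  apply Finset.card_le_card
  intro i hi
  simp only [List.mem_toFinset, List.mem_filter, List.mem_finRange, true_and] at hi
  simp only [Finset.mem_filter, Finset.mem_univ, true_and]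
  rcases hw _ (List.get_mem w i) with h | ⟨a, h⟩
  · exact h
  · rw [h] at hi
    simp [lt] at hi

theorem pf_COL (h1 : N_ALT) (h2 : N_CNT) (h3 : N_CHN) : N_COL := by
  classical
  intro A k hk w hw T hT c hc hi
  have hs : Symm T.stp := ok_U_s1_symm T
  have ho : Occ T.stp T id := ok_U_s3_id T
  have hsym : ∀ x y, adj T.stp x y → adj T.stp y x := fun x y ⟨a, h⟩ => ⟨a, h.symm⟩
  obtain ⟨hK1, hK2, hK3⟩ := h3 hk w hw (adj T.stp) hsym c
    (fun u l v h => ⟨l, Or.inl (hc u l v h)⟩) hi
  let J := {i : Fin w.length // w.get i = bt}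
  let K : J → Set (Cv T.stp) := fun j => KK w c j.1
  let g : J → Set (Cv T.stp) → Prop := fun j B => c (Sum.inl j.1.castSucc) ∈ B
  have hne : ∀ j : J, (K j ∩ In T.stp T id).Nonempty := by
    intro j
    have hc1 : (K j).ncard = k + 2 := (hK1 j.1 j.2).1
    by_contra hcon
    have hsub : K j ⊆ {cl T.stp (T.pt false), cl T.stp (T.pt true)} := by
      intro x hx
      by_contra hx2
      apply hcon
      refine ⟨x, hx, ?_, ?_⟩
      · induction x using Quot.inductionOn with
        | h y => exact ⟨y, rfl⟩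
      · rintro ⟨b, hb⟩
        apply hx2
        cases b
        · exact Or.inl hb.symm
        · exact Or.inr hb.symm
    have h5 : (K j).ncard ≤ 2 := (Set.ncard_le_ncard hsub (Set.toFinite _)).trans
      (Set.ncard_insert_le _ _ |>.trans (by rw [Set.ncard_singleton]))
    omega
  have hR := h2 T.stp hs k hk K g (fun i => (hK1 i.1 i.2).1) (fun i => (hK1 i.1 i.2).2)
    (fun i j hij => hK2 i.1 j.1 i.2 j.2 (fun h => hij (Subtype.ext h)))
    (fun i I B a1 a2 a3 a4 a5 j hij => (hK3 i.1 j.1 i.2 j.2 I B a1 a2 a3 a4).1 a5 hij)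
    T hT id ho (Finset.univ.filter fun j => RC T.stp (K j) (g j) T id)
    (fun i hi => ⟨hne i, (Finset.mem_filter.mp hi).2⟩)
  have hL := h2 T.stp hs k hk (J := Jᵒᵈ) (fun j => K (OrderDual.ofDual j))
    (fun j B => ¬ g (OrderDual.ofDual j) B)
    (fun i => (hK1 (OrderDual.ofDual i).1 (OrderDual.ofDual i).2).1)
    (fun i => (hK1 (OrderDual.ofDual i).1 (OrderDual.ofDual i).2).2)
    (fun i j hij => hK2 (OrderDual.ofDual i).1 (OrderDual.ofDual j).1 (OrderDual.ofDual i).2
      (OrderDual.ofDual j).2 (fun h => hij (OrderDual.ofDual.injective (Subtype.ext h))))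
    (fun i I B a1 a2 a3 a4 a5 j hij => (hK3 (OrderDual.ofDual i).1 (OrderDual.ofDual j).1
      (OrderDual.ofDual i).2 (OrderDual.ofDual j).2 I B a1 a2 a3 a4).2 a5
      (OrderDual.ofDual_lt_ofDual.mpr hij))
    T hT id ho ((Finset.univ.filter fun j => RC T.stp (K j) (fun B => ¬ g j B) T id).map
      OrderDual.toDual.toEmbedding)
    (fun i hi => by
      rw [Finset.mem_map] at hi
      obtain ⟨j, hj, rfl⟩ := hi
      exact ⟨hne j, (Finset.mem_filter.mp hj).2⟩)
  rw [Finset.card_map] at hL
  have hU : (Finset.univ : Finset J) ⊆ (Finset.univ.filter fun j => RC T.stp (K j) (g j) T id) ∪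
      (Finset.univ.filter fun j => RC T.stp (K j) (fun B => ¬ g j B) T id) := by
    intro j _
    rcases h1 T.stp T id (K j) (g j) (hne j) with h | h
    · exact Finset.mem_union_left _ (Finset.mem_filter.mpr ⟨Finset.mem_univ _, h⟩)
    · exact Finset.mem_union_right _ (Finset.mem_filter.mpr ⟨Finset.mem_univ _, h⟩)
  have h6 := (Finset.card_le_card hU).trans (Finset.card_union_le _ _)
  have h7 := nb_le_card w hw
  have h8 : Fintype.card {i : Fin w.length // w.get i = bt} = (Finset.univ : Finset J).card := rfl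
  omega

end Pool.Agent.H73.NP
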