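import Pool.Agent.H73.NP.OCC

set_option autoImplicit false

namespace Pool.Agent.H73.NP

open Pool.Agent.H76.SW Pool.Agent.H76.SWAll Relation

theorem pf_CPT (h1 : N_MIN) (h2 : N_SEP) (h3 : N_CHD) : N_CPT := by
  classical
  intro A P gs hs n m k src tgt ch p q ι h ht K hK hc hn he
  by_contra hcon
  set f : Fin n → Cv gs := fun v => cl gs (ι (Sum.inl v)) with hf
  obtain ⟨x0, hx0K, hx0⟩ := hn
  have hV : K ⊆ Vs gs (Term.node n m src tgt ch p q) ι := by
    intro y hy
    by_cases hxy : x0 = y
    · subst hxy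
      exact hx0.1
    · exact (h2 gs hs _ ι h).2 x0 hx0 y (hc x0 hx0K y hy hxy)
  -- nodes of a child which are in `K` are ends of the child
  have hchild : ∀ x ∈ K, ∀ i : Fin m, x ∈ Vs gs (ch i) (fun x => ι (Sum.inr ⟨i, x⟩)) →
      x = f (src i) ∨ x = f (tgt i) := by
    intro x hx i hxi
    apply (h3 gs hs h i).2.2.2.2
    by_contra hb
    have : x ∈ K ∩ In gs (ch i) (fun x => ι (Sum.inr ⟨i, x⟩)) := ⟨hx, hxi, hb⟩
    rw [he i] at this
    exact this
  have hBd : ∀ x, x ∈ Bd gs (Term.node n m src tgt ch p q) ι ↔ x = f p ∨ x = f q := by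
    intro x
    constructor
    · rintro ⟨b, rfl⟩
      cases b
      · exact Or.inl rfl
      · exact Or.inr rfl
    · rintro (rfl | rfl)
      · exact ⟨false, rfl⟩
      · exact ⟨true, rfl⟩
  have hpq : ¬ (f p ∈ K ∧ f q ∈ K) := by
    rintro ⟨a, b⟩
    apply hcon
    intro x hx
    rcases (hBd x).mp hx with rfl | rfl
    · exact a
    · exact b
  refine h1 (torso src tgt) ht f K hK ?_ ?_
  · -- fibres
    intro x y hxy hxK
    have hsil := cl_sil hs hxy
    have hrho : rho gs (fun (_ : Unit) (_ : A × Bool) (_ : Unit) => False)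
        (ι (Sum.inl x), ()) (ι (Sum.inl y), ()) := by
      have gen : ∀ {a b : P}, ReflTransGen (fun a b => gs a none b) a b →
          rho gs (fun (_ : Unit) (_ : A × Bool) (_ : Unit) => False) (a, ()) (b, ()) := by
        intro a b h
        induction h with
        | refl => exact ReflTransGen.refl
        | tail _ h2 ih => exact ih.tail (Or.inl ⟨h2, rfl⟩)
      exact gen hsil
    have hback : ∀ (a b : P × Unit),
        rho gs (fun (_ : Unit) (_ : A × Bool) (_ : Unit) => False) a b →
        cl gs a.1 = cl gs b.1 := by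
      intro a b h
      induction h with
      | refl => rfl
      | tail _ h2 ih =>
        rcases h2 with ⟨h2, -⟩ | ⟨l, -, h2⟩
        · exact ih.trans (Quot.sound h2)
        · exact h2.elim
    have ht10 := ok_U_s10_torso gs hs _ h x y () () hrho
    have gen : ∀ (b : Fin n × Unit), ReflTransGen (TStep src tgt
        (rho gs (fun (_ : Unit) (_ : A × Bool) (_ : Unit) => False))
        (fun v => ι (Sum.inl v)) p q) (x, ()) b →
        f b.1 = f x ∧
        ReflTransGen (fun a b => (torso src tgt).Adj a b ∧ f a = f x ∧ f b = f x) x b.1 := by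
      intro b hb
      induction hb with
      | refl => exact ⟨rfl, ReflTransGen.refl⟩
      | @tail b c _ h2 ih =>
        obtain ⟨ih1, ih2⟩ := ih
        obtain ⟨h21, h22⟩ := h2
        have hbc : f b.1 = f c.1 := hback _ _ h21
        have hcx : f c.1 = f x := hbc.symm.trans ih1
        refine ⟨hcx, ?_⟩
        by_cases hne : b.1 = c.1
        · rw [← hne]
          exact ih2
        · refine ih2.tail ⟨?_, ih1, hcx⟩
          rcases h22 with h22 | ⟨i, hb1, hc1⟩ | ⟨hb1, hc1⟩
          · exact (hne h22).elim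
          · refine ⟨hne, i, ?_⟩
            rcases hb1 with hb1 | hb1 <;> rcases hc1 with hc1 | hc1
            · exact (hne (hb1.trans hc1.symm)).elim
            · exact Or.inl ⟨hb1.symm, hc1.symm⟩
            · exact Or.inr ⟨hc1.symm, hb1.symm⟩
            · exact (hne (hb1.trans hc1.symm)).elim
          · exfalso
            apply hpq
            rcases hb1 with hb1 | hb1 <;> rcases hc1 with hc1 | hc1
            · exact (hne (hb1.trans hc1.symm)).elim
            · rw [← hb1, ← hc1, ih1, hcx]
              exact ⟨hxK, hxK⟩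
            · rw [← hb1, ← hc1, ih1, hcx]
              exact ⟨hxK, hxK⟩
            · exact (hne (hb1.trans hc1.symm)).elim
    exact (gen _ ht10).2
  · -- adjacency
    intro c hcK c' hc'K hcc
    -- an edge which starts inside
    have main : ∀ c c' : Cv gs, c ∈ K → c' ∈ K → c ≠ c' →
        c ∉ Bd gs (Term.node n m src tgt ch p q) ι →
        ∃ x y, f x = c ∧ f y = c' ∧ (torso src tgt).Adj x y := by
      intro c c' hcK hc'K hcc hcB
      have hcIn : c ∈ In gs (Term.node n m src tgt ch p q) ι := ⟨hV hcK, hcB⟩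
      have step : ∀ (x1 y1 : P) (l : A × Bool), cl gs x1 = c → cl gs y1 = c' →
          gs x1 (some l) y1 → ∃ x y, f x = c ∧ f y = c' ∧ (torso src tgt).Adj x y := by
        intro x1 y1 l e1 e2 e3
        obtain ⟨w, hw⟩ := (h2 gs hs _ ι h).1 x1 (e1 ▸ hcIn)
        rw [← hw] at e3
        rcases h.out w _ y1 e3 with ⟨y', hy', hst⟩ | ⟨⟨d, hd⟩, -⟩
        · rcases hst with ⟨i, x2, y2, hx2, hy2, -⟩ | ⟨hcon2, -⟩
          · have m1 : c ∈ Vs gs (ch i) (fun x => ι (Sum.inr ⟨i, x⟩)) := by
              refine ⟨x2, ?_⟩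
              have : ι (Sum.inr ⟨i, x2⟩) = x1 := by rw [← hw, hx2]
              change cl gs (ι (Sum.inr ⟨i, x2⟩)) = c
              rw [this, e1]
            have m2 : c' ∈ Vs gs (ch i) (fun x => ι (Sum.inr ⟨i, x⟩)) := by
              refine ⟨y2, ?_⟩
              have : ι (Sum.inr ⟨i, y2⟩) = y1 := by rw [← hy', hy2]
              change cl gs (ι (Sum.inr ⟨i, y2⟩)) = c'
              rw [this, e2]
            rcases hchild c hcK i m1 with a1 | a1 <;> rcases hchild c' hc'K i m2 with a2 | a2
            · exact (hcc (a1.trans a2.symm)).elim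
            · exact ⟨src i, tgt i, a1.symm, a2.symm,
                fun hst => hcc (by rw [a1, a2, hst]), i, Or.inl ⟨rfl, rfl⟩⟩
            · exact ⟨tgt i, src i, a1.symm, a2.symm,
                fun hst => hcc (by rw [a1, a2, hst]), i, Or.inr ⟨rfl, rfl⟩⟩
            · exact (hcc (a1.trans a2.symm)).elim
          · cases hcon2
        · exfalso
          apply hcB
          refine ⟨d, ?_⟩
          rw [← hd, hw]
          exact e1
      obtain ⟨a, ⟨x1, y1, e1, e2, e3⟩ | ⟨y1, x1, e2, e1, e3⟩⟩ := hc c hcK c' hc'K hcc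
      · exact step x1 y1 _ e1 e2 e3
      · exact step x1 y1 (a, false) e1 e2 (hs _ _ _ e3)
    by_cases hb : c ∈ Bd gs (Term.node n m src tgt ch p q) ι
    · by_cases hb' : c' ∈ Bd gs (Term.node n m src tgt ch p q) ι
      · exfalso
        apply hpq
        rcases (hBd c).mp hb with a1 | a1 <;> rcases (hBd c').mp hb' with a2 | a2
        · exact (hcc (a1.trans a2.symm)).elim
        · exact ⟨a1 ▸ hcK, a2 ▸ hc'K⟩
        · exact ⟨a2 ▸ hc'K, a1 ▸ hcK⟩
        · exact (hcc (a1.trans a2.symm)).elim
      · obtain ⟨x, y, a1, a2, a3⟩ := main c' c hc'K hcK (Ne.symm hcc) hb'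
        exact ⟨y, x, a2, a1, a3.symm⟩
    · exact main c c' hcK hc'K hcc hb

end Pool.Agent.H73.NP
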