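import Pool.Agent.H73.NP.T
import Pool.Agent.H76.SW.All

set_option autoImplicit false

namespace Pool.Agent.H73.NP

open Pool.Agent.H76.SW Pool.Agent.H76.SWAll

theorem path_term {A : Type} {k : ℕ} (hk : 1 ≤ k) {c : ℕ} (d : ℕ)
    (sub : Fin c → RQ A) {V : Type} (E : V → A → V → Prop)
    (ih : ∀ (j : Fin c) (u v : V), (sub j).Sat E u v → ∃ T : Term A, T.Width k ∧ dp T ≤ d ∧
      T.Sat E u v ∧ ∀ (V' : Type) (E' : V' → A → V' → Prop) (u' v' : V'), T.Sat E' u' v' →
        (sub j).Sat E' u' v')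
    {x y : V} {w : List ((A ⊕ Fin c) × Bool)} (h : Path (ext E (fun j => (sub j).Sat E)) x w y) :
    ∃ P : Term A, P.Width k ∧ dp P ≤ 1 + d ∧ P.Sat E x y ∧
      ∀ (V' : Type) (E' : V' → A → V' → Prop) (x' y' : V'), P.Sat E' x' y' →
        Path (ext E' (fun j => (sub j).Sat E')) x' w y' := by
  obtain ⟨u, hu0, hu1, hu⟩ := Pool.Agent.H69.SW.path_nodes h
  have hch : ∀ i : Fin w.length, ∃ T : Term A, T.Width k ∧ dp T ≤ d ∧
      T.Sat E (u (if (w.get i).2 = true then i.castSucc else i.succ))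
        (u (if (w.get i).2 = true then i.succ else i.castSucc)) ∧
      ∀ (V' : Type) (E' : V' → A → V' → Prop) (u' v' : V'), T.Sat E' u' v' →
        ext E' (fun j => (sub j).Sat E') u' (w.get i).1 v' := by
    intro i
    have hst := hu i
    unfold Step at hst
    have hsat : ext E (fun j => (sub j).Sat E)
        (u (if (w.get i).2 = true then i.castSucc else i.succ)) (w.get i).1
        (u (if (w.get i).2 = true then i.succ else i.castSucc)) := by
      split_ifs at hst ⊢ <;> exact hst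
    cases hl : (w.get i).1 with
    | inl a =>
      rw [hl] at hsat
      exact ⟨Term.edge a, trivial, Nat.zero_le _, hsat, fun V' E' u' v' h' => h'⟩
    | inr j =>
      rw [hl] at hsat
      obtain ⟨T, hT1, hT0, hT2, hT3⟩ := ih j _ _ hsat
      exact ⟨T, hT1, hT0, hT2, hT3⟩
  choose ch hch1 hch0 hch2 hch3 using hch
  refine ⟨Term.node (w.length + 1) w.length
    (fun i => if (w.get i).2 = true then i.castSucc else i.succ)
    (fun i => if (w.get i).2 = true then i.succ else i.castSucc) ch 0 (Fin.last _), ?_, ?_, ?_, ?_⟩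
  · refine ⟨?_, hch1⟩
    refine ok_U_d9_mono
      (torso (fun i : Fin w.length => i.castSucc) (fun i : Fin w.length => i.succ)) _
      (Function.Embedding.refl _) ?_ k k le_rfl (ok_U_d7_path hk)
    rintro a b ⟨hab, i, hi⟩
    refine ⟨hab, i, ?_⟩
    simp only [Function.Embedding.refl_apply]
    beta_reduce at hi
    split_ifs at hi with hb
    · exact hi
    · rcases hi with ⟨e1, e2⟩ | ⟨e1, e2⟩
      · exact Or.inr ⟨e2, e1⟩
      · exact Or.inl ⟨e2, e1⟩
  · change 1 + Finset.univ.sup (fun i => dp (ch i)) ≤ 1 + d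
    exact Nat.add_le_add_left (Finset.sup_le fun i _ => hch0 i) 1
  · exact ⟨u, hch2, hu0, hu1⟩
  · rintro V' E' x' y' ⟨μ, hμ, rfl, rfl⟩
    apply Pool.Agent.H69.SW.path_of w μ
    intro i
    have h3 := hch3 i V' E' _ _ (hμ i)
    beta_reduce at h3
    unfold Step
    split_ifs at h3 ⊢ <;> exact h3

theorem exp_dp {A : Type} {k : ℕ} (hk : 1 ≤ k) (ω : RQ A) : ω.Width k → ∃ d : ℕ,
    ∀ (V : Type) (E : V → A → V → Prop) (u v : V), ω.Sat E u v →
      ∃ T : Term A, T.Width k ∧ dp T ≤ d ∧ T.Sat E u v ∧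
        ∀ (V' : Type) (E' : V' → A → V' → Prop) (u' v' : V'), T.Sat E' u' v' →
          ω.Sat E' u' v' := by
  induction ω with
  | cq c b sub p q ih =>
    intro hω
    have ih' := fun j => ih j (hω.2 j)
    choose d hd using ih'
    refine ⟨1 + (1 + Finset.univ.sup d), ?_⟩
    intro V E u v h
    obtain ⟨μ, hμ, rfl, rfl⟩ := h
    have hP : ∀ i : Fin b.m, ∃ (w : List ((A ⊕ Fin c) × Bool)) (P : Term A),
        w ∈ (b.aut i).accepts ∧ P.Width k ∧ dp P ≤ 1 + Finset.univ.sup d ∧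
        P.Sat E (μ (b.src i)) (μ (b.tgt i)) ∧
        ∀ (V' : Type) (E' : V' → A → V' → Prop) (x' y' : V'), P.Sat E' x' y' →
          Path (ext E' (fun j => (sub j).Sat E')) x' w y' := by
      intro i
      obtain ⟨w, hw, hpath⟩ := hμ i
      obtain ⟨P, a1, a0, a2, a3⟩ := path_term hk (Finset.univ.sup d) sub E
        (fun j u v hs => by
          obtain ⟨T, t1, t2, t3, t4⟩ := hd j V E u v hs
          exact ⟨T, t1, t2.trans (Finset.le_sup (Finset.mem_univ j)), t3, t4⟩) hpath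
      exact ⟨w, P, hw, a1, a0, a2, a3⟩
    choose w P hw hP1 hP0 hP2 hP3 using hP
    refine ⟨Term.node b.n b.m b.src b.tgt P p q, ⟨hω.1, hP1⟩, ?_, ⟨μ, hP2, rfl, rfl⟩, ?_⟩
    · change 1 + Finset.univ.sup (fun i => dp (P i)) ≤ _
      exact Nat.add_le_add_left (Finset.sup_le fun i _ => hP0 i) 1
    · rintro V' E' u' v' ⟨μ', hμ', e1, e2⟩
      exact ⟨μ', fun i => ⟨w i, hw i, hP3 i V' E' _ _ (hμ' i)⟩, e1, e2⟩
  | union n sub ih =>
    intro hω
    have ih' := fun j => ih j (hω j)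
    choose d hd using ih'
    refine ⟨Finset.univ.sup d, ?_⟩
    intro V E u v h
    obtain ⟨j, hj⟩ := h
    obtain ⟨T, hT1, hT0, hT2, hT3⟩ := hd j V E u v hj
    exact ⟨T, hT1, hT0.trans (Finset.le_sup (Finset.mem_univ j)), hT2,
      fun V' E' u' v' h' => ⟨j, hT3 V' E' u' v' h'⟩⟩

theorem pf_DEP : N_DEP := by
  classical
  intro A k hk t ht
  by_cases h0 : t.b.n = 0
  · have hE : Fin t.b.n → False := fun x => by
      have := x.2
      omega
    refine ⟨1, fun V hV E z h => ?_⟩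
    refine ⟨Term.node 1 0 Fin.elim0 Fin.elim0 Fin.elim0 0 0, ⟨ok_U_d6_small _ k (by simp),
      fun i => i.elim0⟩, ?_, ?_, ?_⟩
    · change 1 + Finset.univ.sup (fun i : Fin 0 => _) ≤ 1
      simp
    · exact ⟨Classical.choice hV, Classical.choice hV, fun _ => Classical.choice hV,
        fun i => i.elim0, rfl, rfl⟩
    · intro V' E' u' v' z' _
      exact ⟨fun x => (hE x).elim, fun i => (hE (t.b.src i)).elim, fun i => i.elim0⟩
  · obtain ⟨d, hd⟩ := exp_dp hk (RQ.cq t.c t.b t.sub ⟨0, Nat.pos_of_ne_zero h0⟩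
      ⟨0, Nat.pos_of_ne_zero h0⟩) ht
    refine ⟨d, fun V hV E z h => ?_⟩
    obtain ⟨μ, hμ, hz⟩ := h
    obtain ⟨T, t1, t2, t3, t4⟩ := hd V E _ _ ⟨μ, hμ, rfl, rfl⟩
    refine ⟨T, t1, t2, ⟨_, _, t3⟩, ?_⟩
    intro V' E' u' v' z' hs
    obtain ⟨μ', hμ', -, -⟩ := t4 V' E' u' v' hs
    exact ⟨μ', hμ', fun i => i.elim0⟩

end Pool.Agent.H73.NP
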