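import Pool.Agent.H76.SW.Sys

/-!
Path queries with one nested symbol: definitions.
-/

set_option autoImplicit false

namespace Pool.Agent.H73.NP

open Pool.Agent.H76.SW

/-- The pairs of the gadget on `0, ..., k + 2`: all pairs `s < t` with `t ≤ k + 1`, and the pairs
`(1, k + 2)` and `(2, k + 2)`. -/
def GE (k : ℕ) (e : Fin (k + 3) × Fin (k + 3)) : Prop :=
  e.1 < e.2 ∧ ((e.2 : ℕ) ≤ k + 1 ∨ (e.1 : ℕ) = 1 ∨ (e.1 : ℕ) = 2)

instance (k : ℕ) : DecidablePred (GE k) := fun e => by unfold GE; infer_instance

/-- Letters of the databases: `A`, and one letter for every pair of variables of the gadget. -/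
abbrev Alp (A : Type) (k : ℕ) : Type := A ⊕ (Fin (k + 3) × Fin (k + 3))

/-- The automaton with the language `{[l]}`. -/
def one {Λ : Type} (l : Λ) : NFA Λ (Fin 2) where
  step s x := {t | s = 0 ∧ x = l ∧ t = 1}
  start := {0}
  accept := {1}

/-- The gadget: a conjunctive query on the variables `0, ..., k + 2` with one atom, labelled `e`,
for every pair `e` of the gadget. -/
noncomputable def gadget (A : Type) (k : ℕ) : Body (Alp A k) 0 where
  n := k + 3
  m := Fintype.card {e : Fin (k + 3) × Fin (k + 3) // GE k e}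
  src i := ((Fintype.equivFin {e : Fin (k + 3) × Fin (k + 3) // GE k e}).symm i).1.1
  tgt i := ((Fintype.equivFin {e : Fin (k + 3) × Fin (k + 3) // GE k e}).symm i).1.2
  st _ := 2
  aut i := one (Sum.inl (Sum.inr
    ((Fintype.equivFin {e : Fin (k + 3) × Fin (k + 3) // GE k e}).symm i).1), true)

/-- The binary query defined by the gadget with the outputs `0` and `k + 2`. -/
noncomputable def beta (A : Type) (k : ℕ) : RQ (Alp A k) :=
  .cq 0 (gadget A k) Fin.elim0 (0 : Fin (k + 3)) (Fin.last (k + 2))

/-- Symbols of the words: letters, and one further symbol. -/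
abbrev Lt (A : Type) (k : ℕ) : Type := (Alp A k ⊕ Fin 1) × Bool

/-- The further symbol. -/
def bt {A : Type} {k : ℕ} : Lt A k := (Sum.inr 0, true)

/-- A letter of `A`. -/
def lt {A : Type} {k : ℕ} (a : A) : Lt A k := (Sum.inl (Sum.inl a), true)

/-- The symbols allowed in words: the letters of `A` and the further symbol. -/
def Ok {A : Type} {k : ℕ} (l : Lt A k) : Prop := l = bt ∨ ∃ a : A, l = lt a

/-- Number of occurrences of the further symbol. -/
def nb {A : Type} {k : ℕ} (w : List (Lt A k)) : ℕ := w.countP fun l => l.1.isRight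

/-- The Boolean Regular Query with two variables `x`, `y` and one atom from `x` to `y` with the
language of `M`, where the further symbol stands for `beta`. -/
noncomputable def pathQ {A : Type} {k q : ℕ} (M : NFA (Lt A k) (Fin q)) : Query (Alp A k) 0 :=
  [⟨1, ⟨2, 1, fun _ => 0, fun _ => 1, fun _ => q, fun _ => M⟩, fun _ => beta A k, Fin.elim0⟩]

/-- A path labelled `w` from `u` to `v`; the further symbol is a step of `beta`. -/
def PathB {A V : Type} {k : ℕ} (E : V → Alp A k → V → Prop) (u : V) (w : List (Lt A k)) (v : V) :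
    Prop :=
  Path (ext E (fun _ : Fin 1 => (beta A k).Sat E)) u w v

/-- Nodes of the database of a word of length `n`: positions, and the nodes of the gadgets. -/
abbrev Vx (k n : ℕ) : Type := Fin (n + 1) ⊕ (Fin n × Fin (k + 3))

/-- The node of the `i`-th gadget which stands for the variable `s`. -/
def gv {k n : ℕ} (i : Fin n) (s : Fin (k + 3)) : Vx k n :=
  if s = 0 then Sum.inl i.castSucc else if s = Fin.last (k + 2) then Sum.inl i.succ
  else Sum.inr (i, s)

/-- The database of a word: a path in which a gadget is put for every further symbol. -/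
def cE {A : Type} {k : ℕ} (w : List (Lt A k)) (u : Vx k w.length) (l : Alp A k)
    (v : Vx k w.length) : Prop :=
  match l with
  | .inl a => ∃ i, w.get i = lt a ∧ u = Sum.inl i.castSucc ∧ v = Sum.inl i.succ
  | .inr e => ∃ i, w.get i = bt ∧ GE k e ∧ u = gv i e.1 ∧ v = gv i e.2

/-- Nesting depth of a term. -/
def dp {A : Type} : Term A → ℕ
  | .edge _ => 0
  | .node _ _ _ _ ch _ _ => 1 + Finset.univ.sup fun i => dp (ch i)

/-- The nodes of an occurrence of a term, its two ports, and its inner nodes. -/
def Vs {A P : Type} (gs : P → Option (A × Bool) → P → Prop) (T : Term A) (ι : T.Pos → P) :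
    Set (Cv gs) := {x | ∃ y, cl gs (ι y) = x}

def Bd {A P : Type} (gs : P → Option (A × Bool) → P → Prop) (T : Term A) (ι : T.Pos → P) :
    Set (Cv gs) := {x | ∃ b, cl gs (ι (T.pt b)) = x}

def In {A P : Type} (gs : P → Option (A × Bool) → P → Prop) (T : Term A) (ι : T.Pos → P) :
    Set (Cv gs) := Vs gs T ι \ Bd gs T ι

/-- Adjacency in the canonical database. -/
def adj {A P : Type} (gs : P → Option (A × Bool) → P → Prop) (x y : Cv gs) : Prop :=
  ∃ a, canon gs x a y ∨ canon gs y a x

/-- The set `K` is captured by an occurrence below `T` with a property `g` of its ports. -/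
def RC {A P : Type} (gs : P → Option (A × Bool) → P → Prop) (K : Set (Cv gs))
    (g : Set (Cv gs) → Prop) : (T : Term A) → (T.Pos → P) → Prop
  | .edge _, _ => False
  | .node n m src tgt ch p q, ι =>
      ((∀ i : Fin m, K ∩ In gs (ch i) (fun x => ι (Sum.inr ⟨i, x⟩)) = ∅) ∧
        g (Bd gs (.node n m src tgt ch p q) ι)) ∨
      ∃ i : Fin m, (K ∩ In gs (ch i) (fun x => ι (Sum.inr ⟨i, x⟩))).Nonempty ∧
        RC gs K g (ch i) (fun x => ι (Sum.inr ⟨i, x⟩))

/-- The nodes of the complete graph in the `i`-th gadget, under the map `c`. -/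
def KK {A C : Type} {k : ℕ} (w : List (Lt A k)) (c : Vx k w.length → C) (i : Fin w.length) :
    Set C := {x | ∃ s : Fin (k + 3), (s : ℕ) ≤ k + 1 ∧ x = c (gv i s)}

/-- The map `c` is injective on the nodes which are ends of edges. -/
def Inj {A C : Type} {k : ℕ} (w : List (Lt A k)) (c : Vx k w.length → C) : Prop :=
  ∀ u u', (∃ l v, cE w u l v ∨ cE w v l u) → (∃ l v, cE w u' l v ∨ cE w v l u') →
    c u = c u' → u = u'

/-- `w` is in the language of `M`, and no other infix of `w` is. -/
def IMin {Λ : Type} {q : ℕ} (M : NFA Λ (Fin q)) (w : List Λ) : Prop :=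
  w ∈ M.accepts ∧ ∀ w' ∈ M.accepts, w' <:+: w → w' = w

end Pool.Agent.H73.NP
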