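import Pool.Agent.H73.NP.T

set_option autoImplicit false

namespace Pool.Agent.H73.NP

open Pool.Agent.H76.SW

/-- The criterion fails: there are minimal words with arbitrarily many further symbols. -/
theorem many (hp : N_PUM) {A : Type} {k q : ℕ} (M : NFA (Lt A k) (Fin q))
    (h : ¬ ∀ w ∈ M.accepts, ∃ w' ∈ M.accepts, w' <:+: w ∧ nb w' ≤ 4 ^ q) :
    ∀ m, ∃ w, IMin M w ∧ m < nb w := by
  push Not at h
  obtain ⟨w, hw, hw2⟩ := h
  obtain ⟨w1, h1, h2⟩ := (hp M (fun l => l.1.isRight)).1 w hw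
  exact (hp M (fun l => l.1.isRight)).2 w1 h1 (hw2 w1 h1.1 h2)

theorem sat_iff {A V : Type} {k q : ℕ} (M : NFA (Lt A k) (Fin q)) (E : V → Alp A k → V → Prop)
    (z : Fin 0 → V) : (pathQ M).Sat E z ↔ ∃ w ∈ M.accepts, ∃ u v, PathB E u w v := by
  constructor
  · rintro ⟨t, ht, μ, hμ, -⟩
    have ht2 := List.mem_singleton.mp (show t ∈ ([_] : List (CRQ (Alp A k) 0)) from ht)
    subst ht2
    obtain ⟨w, hw, hp⟩ := hμ (0 : Fin 1)
    exact ⟨w, hw, _, _, hp⟩
  · rintro ⟨w, hw, u, v, hp⟩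
    refine ⟨_, List.mem_singleton_self _, fun x : Fin 2 => if x = 0 then u else v, ?_,
      fun i => i.elim0⟩
    intro _
    exact ⟨w, hw, hp⟩

theorem part (hp : N_PUM) (hpos : N_POS) (hkey : N_KEY) (hsat : N_SAT) {A : Type} {k q : ℕ}
    (hk : 1 ≤ k) (M : NFA (Lt A k) (Fin q)) (hM : ∀ w ∈ M.accepts, ∀ l ∈ w, Ok l) :
    ((∀ w ∈ M.accepts, ∃ w' ∈ M.accepts, w' <:+: w ∧ nb w' ≤ 4 ^ q) →
      ∃ Ω : Query (Alp A k) 0, Ω.Width k ∧ Ω.Le (pathQ M) ∧ (pathQ M).Le Ω) ∧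
    ((¬ ∀ w ∈ M.accepts, ∃ w' ∈ M.accepts, w' <:+: w ∧ nb w' ≤ 4 ^ q) →
      ∀ Ω : Query (Alp A k) 0, Ω.Width k → Ω.Le (pathQ M) →
        ∃ Ω' : Query (Alp A k) 0, Ω'.Width k ∧ Ω'.Le (pathQ M) ∧ Ω.Le Ω' ∧ ¬ Ω'.Le Ω) ∧
    ∀ (V : Type) (E : V → Alp A k → V → Prop) (z : Fin 0 → V), (pathQ M).Sat E z →
      ∃ Ω : Query (Alp A k) 0, Ω.Width k ∧ Ω.Le (pathQ M) ∧ Ω.Sat E z := by
  have hle : ∀ (m : ℕ) (Δ : Query (Alp A k) 0),
      (∀ (V : Type) (E : V → Alp A k → V → Prop) (z : Fin 0 → V),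
        Δ.Sat E z ↔ ∃ w ∈ M.accepts, nb w ≤ m ∧ ∃ u v, PathB E u w v) → Δ.Le (pathQ M) := by
    intro m Δ h V _ E z hz
    obtain ⟨w, hw, -, u, v, hp⟩ := (h V E z).mp hz
    exact (sat_iff M E z).mpr ⟨w, hw, u, v, hp⟩
  refine ⟨fun hc => ?_, fun hc Ω hΩ hl => ?_, fun V E z hz => ?_⟩
  · obtain ⟨Δ, hΔ, hs⟩ := hpos hk M hM (4 ^ q)
    refine ⟨Δ, hΔ, hle _ Δ hs, ?_⟩
    intro V _ E z hz
    obtain ⟨w, hw, u, v, hp⟩ := (sat_iff M E z).mp hz
    obtain ⟨w', hw', ⟨s, t, hst⟩, hn⟩ := hc w hw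
    subst hst
    refine (hs V E z).mpr ⟨w', hw', hn, ?_⟩
    have split : ∀ (a b : List (Lt A k)) (x y : V), PathB E x (a ++ b) y →
        ∃ m, PathB E x a m ∧ PathB E m b y := by
      intro a
      induction a with
      | nil => intro b x y h; exact ⟨x, Path.nil _, h⟩
      | cons l a ih =>
        intro b x y h
        rcases h with _ | ⟨_, v1, _, _, _, h1, h2⟩
        obtain ⟨m, hm1, hm2⟩ := ih b v1 y h2
        exact ⟨m, Path.cons _ _ _ _ _ h1 hm1, hm2⟩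
    obtain ⟨m1, h1, -⟩ := split _ _ _ _ hp
    obtain ⟨m2, -, h3⟩ := split _ _ _ _ h1
    exact ⟨_, _, h3⟩
  · obtain ⟨D, hD⟩ := hkey hk M hM Ω hΩ hl
    obtain ⟨w, hw, hwD⟩ := many hp M hc D
    obtain ⟨Δ, hΔ, hs⟩ := hpos hk M hM (nb w)
    have hsw : Δ.Sat (cE w) Fin.elim0 :=
      (hs _ _ _).mpr ⟨w, hw.1, le_rfl, _, _, hsat hk w (hM w hw.1)⟩
    refine ⟨Ω ++ Δ, ?_, ?_, ?_, ?_⟩
    · intro t ht
      rcases List.mem_append.mp ht with h | h
      · exact hΩ t h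
      · exact hΔ t h
    · rintro V hV E z ⟨t, ht, hts⟩
      rcases List.mem_append.mp ht with h | h
      · exact hl V E z ⟨t, h, hts⟩
      · exact hle _ Δ hs V E z ⟨t, h, hts⟩
    · rintro V _ E z ⟨t, ht, hts⟩
      exact ⟨t, List.mem_append_left _ ht, hts⟩
    · intro hcon
      obtain ⟨t, ht, hts⟩ := hsw
      have := hD w hw Fin.elim0 (hcon _ (cE w) Fin.elim0 ⟨t, List.mem_append_right _ ht, hts⟩)
      omega
  · obtain ⟨w, hw, u, v, hp⟩ := (sat_iff M E z).mp hz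
    obtain ⟨Δ, hΔ, hs⟩ := hpos hk M hM (nb w)
    exact ⟨Δ, hΔ, hle _ Δ hs, (hs V E z).mpr ⟨w, hw, le_rfl, u, v, hp⟩⟩

theorem crit (hp : N_PUM) (hpos : N_POS) (hkey : N_KEY) (hsat : N_SAT) {A : Type} {k q : ℕ}
    (hk : 1 ≤ k) (M : NFA (Lt A k) (Fin q)) (hM : ∀ w ∈ M.accepts, ∀ l ∈ w, Ok l) :
    (∃ Ω : Query (Alp A k) 0, Ω.Width k ∧ Ω.Le (pathQ M) ∧ (pathQ M).Le Ω) ↔
      ∀ w ∈ M.accepts, ∃ w' ∈ M.accepts, w' <:+: w ∧ nb w' ≤ 4 ^ q := by
  obtain ⟨h1, h2, h3⟩ := part hp hpos hkey hsat hk M hM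
  refine ⟨?_, h1⟩
  rintro ⟨Ω, a1, a2, a3⟩
  by_contra hc
  obtain ⟨Ω', b1, b2, b3, b4⟩ := h2 hc Ω a1 a2
  exact b4 fun V _ E z hz => a3 V E z (b2 V E z hz)

theorem example_fails (hx : N_EXM) (k : ℕ) : ∃ M : NFA (Lt Bool k) (Fin 3),
    (∀ w, w ∈ M.accepts ↔ ∃ n, w = lt true :: (List.replicate n bt ++ [lt false])) ∧
    (∀ w ∈ M.accepts, ∀ l ∈ w, Ok l) ∧
    ¬ ∀ w ∈ M.accepts, ∃ w' ∈ M.accepts, w' <:+: w ∧ nb w' ≤ 4 ^ 3 := by
  obtain ⟨M, hM⟩ := hx k
  refine ⟨M, hM, ?_, ?_⟩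
  · intro w hw l hl
    obtain ⟨n, rfl⟩ := (hM w).mp hw
    simp only [List.mem_cons, List.mem_append, List.mem_replicate, List.not_mem_nil,
      or_false] at hl
    rcases hl with rfl | ⟨-, rfl⟩ | rfl
    · exact Or.inr ⟨_, rfl⟩
    · exact Or.inl rfl
    · exact Or.inr ⟨_, rfl⟩
  · intro h
    obtain ⟨w', hw', ⟨s, t, hst⟩, hn⟩ := h _ ((hM _).mpr ⟨4 ^ 3 + 1, rfl⟩)
    obtain ⟨n, rfl⟩ := (hM w').mp hw'
    -- count the letters `lt true` before the last letter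
    have key : ∀ (m n : ℕ) (s t : List (Lt Bool k)),
        s ++ (lt true :: (List.replicate n bt ++ [lt false])) ++ t =
          lt true :: (List.replicate m bt ++ [lt false]) → n = m := by
      intro m n s t hst
      have hs : s = [] := by
        rcases s with _ | ⟨x, s⟩
        · rfl
        · exfalso
          simp only [List.cons_append, List.cons.injEq] at hst
          have h1 : (lt true : Lt Bool k) ∈ List.replicate m bt ++ [lt false] := by
            rw [← hst.2]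
            simp
          simp only [List.mem_append, List.mem_replicate, List.mem_singleton] at h1
          rcases h1 with ⟨-, h1⟩ | h1
          · simp [lt, bt] at h1
          · simp [lt] at h1
      subst hs
      simp only [List.nil_append, List.cons_append, List.cons.injEq, true_and] at hst
      clear hw' hn
      induction n generalizing m with
      | zero =>
        rcases m with _ | m
        · rfl
        · exfalso
          simp only [List.replicate_zero, List.nil_append, List.replicate_succ,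
            List.cons_append, List.cons.injEq] at hst
          exact absurd hst.1 (by simp [lt, bt])
      | succ n ih =>
        rcases m with _ | m
        · exfalso
          simp only [List.replicate_zero, List.nil_append, List.replicate_succ,
            List.cons_append, List.cons.injEq] at hst
          exact absurd hst.1 (by simp [lt, bt])
        · simp only [List.replicate_succ, List.cons_append, List.cons.injEq, true_and] at hst
          rw [ih m hst]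
    have h1 := key _ _ _ _ hst
    subst h1
    have h2 : nb (lt true :: (List.replicate (4 ^ 3 + 1) bt ++ [lt false]) : List (Lt Bool k)) =
        4 ^ 3 + 1 := by
      simp [nb, lt, bt]
    omega

end Pool.Agent.H73.NP
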