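import Pool.Agent.H73.NP.T
import Pool.Agent.H76.SW.All

set_option autoImplicit false

namespace Pool.Agent.H73.NP

open Pool.Agent.H76.SW Pool.Agent.H76.SWAll Relation

theorem term_sat {A : Type} (T : Term A) :
    T.Sat (canon T.stp) (cl T.stp (T.pt false)) (cl T.stp (T.pt true)) :=
  ok_U_s6_sat T.stp T id (ok_U_s3_id T)

theorem pf_KEY (h1 : N_DEP) (h2 : N_HOM) (h3 : N_RIG) (h4 : N_COL) : N_KEY := by
  classical
  intro A k q hk M hM Ω hΩ hle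
  have hd : ∀ t ∈ Ω, ∃ d : ℕ, ∀ (V : Type) (_ : Nonempty V) (E : V → Alp A k → V → Prop)
      (z : Fin 0 → V) (_ : t.Sat E z),
      ∃ T : Term (Alp A k), T.Width k ∧ dp T ≤ d ∧ (∃ u v, T.Sat E u v) ∧
        ∀ (V' : Type) (E' : V' → Alp A k → V' → Prop) (u' v' : V') (z' : Fin 0 → V'),
          T.Sat E' u' v' → t.Sat E' z' := fun t ht => h1 k hk t (hΩ t ht)
  have hD : ∃ D : ℕ, ∀ t ∈ Ω, ∀ (V : Type) (_ : Nonempty V) (E : V → Alp A k → V → Prop)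
      (z : Fin 0 → V) (_ : t.Sat E z),
      ∃ T : Term (Alp A k), T.Width k ∧ dp T ≤ D ∧ (∃ u v, T.Sat E u v) ∧
        ∀ (V' : Type) (E' : V' → Alp A k → V' → Prop) (u' v' : V') (z' : Fin 0 → V'),
          T.Sat E' u' v' → t.Sat E' z' := by
    clear hΩ hle
    induction Ω with
    | nil => exact ⟨0, fun t ht => by simp at ht⟩
    | cons t0 Ω ih =>
      obtain ⟨D, hD⟩ := ih (fun t ht => hd t (List.mem_cons_of_mem _ ht))
      obtain ⟨d, hd0⟩ := hd t0 List.mem_cons_self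
      refine ⟨max d D, fun t ht V hV E z hz => ?_⟩
      rcases List.mem_cons.mp ht with rfl | ht
      · obtain ⟨T, a1, a2, a3, a4⟩ := hd0 V hV E z hz
        exact ⟨T, a1, a2.trans (le_max_left _ _), a3, a4⟩
      · obtain ⟨T, a1, a2, a3, a4⟩ := hD t ht V hV E z hz
        exact ⟨T, a1, a2.trans (le_max_right _ _), a3, a4⟩
  obtain ⟨D, hD⟩ := hD
  refine ⟨2 * D, fun w hw z hz => ?_⟩
  obtain ⟨t, ht, hts⟩ := hz
  obtain ⟨T, hT1, hT2, ⟨u, v, hT3⟩, hT4⟩ := hD t ht _ ⟨Sum.inl 0⟩ (cE w) z hts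
  obtain ⟨φ, hφ⟩ := h2 T (cE w) u v hT3
  have hfin : Finite T.Pos := ok_U_s2_fin T
  have hfin2 : Finite (Cv T.stp) := Quot.finite _
  have hs : Ω.Sat (canon T.stp) Fin.elim0 :=
    ⟨t, ht, hT4 _ _ _ _ Fin.elim0 (term_sat T)⟩
  obtain ⟨t', ht', μ, hμ, -⟩ := hle (Cv T.stp) (canon T.stp) Fin.elim0 hs
  have ht2 := List.mem_singleton.mp (show t' ∈ ([_] : List (CRQ (Alp A k) 0)) from ht')
  subst ht2
  obtain ⟨w', hw', hp⟩ := hμ (0 : Fin 1)
  have hOk : ∀ l ∈ w, Ok l := hM w hw.1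
  obtain ⟨hinf, hemb⟩ := h3 hk w w' hOk (hM w' hw') (canon T.stp) φ hφ _ _ hp
  have hww : w' = w := hw.2 w' hw' hinf
  obtain ⟨c, hc1, hc2⟩ := hemb hww
  have h5 := h4 hk w hOk T hT1 c hc1 (by
    intro u1 u2 e1 e2 e3
    have f1 : φ (c u1) = u1 := by
      obtain ⟨l, v1, h | h⟩ := e1
      · exact (hc2 _ _ _ h).1
      · exact (hc2 _ _ _ h).2
    have f2 : φ (c u2) = u2 := by
      obtain ⟨l, v1, h | h⟩ := e2
      · exact (hc2 _ _ _ h).1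
      · exact (hc2 _ _ _ h).2
    rw [← f1, ← f2, e3])
  omega

end Pool.Agent.H73.NP
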