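import Pool.Agent.H73.NP.T
import Pool.Agent.H76.SW.All

set_option autoImplicit false

namespace Pool.Agent.H73.NP

open Pool.Agent.H76.SW Pool.Agent.H76.SWAll Relation

section

variable {N : Type} (par : N → Option N) (rk : N → ℕ)

/-- One step upwards inside `S`. -/
def stepUp (S : Set N) (x y : N) : Prop := par x = some y ∧ y ∈ S

/-- The maximal upward path inside `S` which starts at `x` ends at `r`. -/
def TopOf (S : Set N) (x r : N) : Prop :=
  ReflTransGen (stepUp par S) x r ∧ ∀ y, par r = some y → y ∉ S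

theorem top_unique {S : Set N} {x r r' : N} (h : TopOf par S x r) (h' : TopOf par S x r') :
    r = r' := by
  obtain ⟨h1, h2⟩ := h
  induction h1 using ReflTransGen.head_induction_on with
  | refl =>
    rcases h'.1.cases_head with h | ⟨y, hy, -⟩
    · exact h
    · exact (h2 y hy.1 hy.2).elim
  | @head a c hac hcr ih =>
    rcases h'.1.cases_head with h | ⟨y, hy, hy2⟩
    · subst h
      exact (h'.2 c hac.1 hac.2).elim
    · have : y = c := by
        have := hy.1.symm.trans hac.1
        exact Option.some.inj this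
      subst this
      exact ih ⟨hy2, h'.2⟩

theorem top_exists (hrk : ∀ x y, par x = some y → rk y < rk x) (S : Set N) (x : N) :
    ∃ r, TopOf par S x r := by
  induction hn : rk x using Nat.strong_induction_on generalizing x with
  | _ n ih =>
    subst hn
    by_cases h : ∃ y, par x = some y ∧ y ∈ S
    · obtain ⟨y, hy, hyS⟩ := h
      obtain ⟨r, hr1, hr2⟩ := ih (rk y) (hrk x y hy) y rfl
      exact ⟨r, ReflTransGen.head ⟨hy, hyS⟩ hr1, hr2⟩
    · push Not at h
      exact ⟨x, ReflTransGen.refl, h⟩

theorem top_mem {S : Set N} {x r : N} (hx : x ∈ S) (h : ReflTransGen (stepUp par S) x r) :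
    r ∈ S := by
  induction h with
  | refl => exact hx
  | tail _ h2 _ => exact h2.2

theorem reach_mem (hrk : ∀ x y, par x = some y → rk y < rk x) {S S' : Set N} {x r r' : N}
    (h : ReflTransGen (stepUp par S) x r) (h' : ReflTransGen (stepUp par S') x r')
    (hx : x ∈ S') (hle : rk r' ≤ rk r) : r ∈ S' := by
  have hmono : ∀ {x r : N}, ReflTransGen (stepUp par S) x r → rk r ≤ rk x := by
    intro x r h
    induction h with
    | refl => exact le_rfl
    | tail _ h2 ih => exact (hrk _ _ h2.1).le.trans ih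
  induction h using ReflTransGen.head_induction_on with
  | refl => exact hx
  | @head a c hac hcr ih =>
    rcases h'.cases_head with h | ⟨y, hy, hy2⟩
    · subst h
      have h1 := hmono hcr
      have h2 := hrk _ _ hac.1
      omega
    · have : y = c := Option.some.inj (hy.1.symm.trans hac.1)
      subst this
      exact ih hy2 hy.2

end

theorem pf_MIN : N_MIN := by
  classical
  intro n k G hG C f K hK hconn hadj
  obtain ⟨D⟩ := ok_U_d1_root G k hG
  let S : C → Set D.N := fun c => {x | ∃ v ∈ D.B x, f v = c}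
  have hS : ∀ v x, v ∈ D.B x → x ∈ S (f v) := fun v x h => ⟨v, h, rfl⟩
  -- constancy for one vertex
  have c1 : ∀ v x x' r, v ∈ D.B x → v ∈ D.B x' → TopOf D.par (S (f v)) x r →
      TopOf D.par (S (f v)) x' r := by
    intro v x x' r hx hx' hr
    obtain ⟨t, ht, htop⟩ := D.conn v
    have reach : ∀ m, ∀ x, D.rk x = m → v ∈ D.B x →
        ReflTransGen (stepUp D.par (S (f v))) x t := by
      intro m
      induction m using Nat.strong_induction_on with
      | _ m ih =>
        intro x hm hx
        rcases htop x hx with rfl | ⟨y, hy, hvy⟩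
        · exact ReflTransGen.refl
        · exact ReflTransGen.head ⟨hy, hS v y hvy⟩
            (ih (D.rk y) (hm ▸ D.hrk x y hy) y rfl hvy)
    obtain ⟨r0, h01, h02⟩ := top_exists D.par D.rk D.hrk (S (f v)) t
    have a1 : TopOf D.par (S (f v)) x r0 := ⟨(reach _ x rfl hx).trans h01, h02⟩
    have a2 : TopOf D.par (S (f v)) x' r0 := ⟨(reach _ x' rfl hx').trans h01, h02⟩
    rw [top_unique D.par hr a1]
    exact a2
  -- constancy on a class
  have c2 : ∀ c ∈ K, ∃ r, r ∈ S c ∧ ∀ x ∈ S c, TopOf D.par (S c) x r := by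
    intro c hc
    have hne : ∃ c' ∈ K, c' ≠ c := by
      by_contra hcon
      push Not at hcon
      have : K ⊆ {c} := fun x hx => hcon x hx
      have := Set.ncard_le_ncard this (Set.finite_singleton c)
      rw [hK, Set.ncard_singleton] at this
      omega
    obtain ⟨c', hc', hcc⟩ := hne
    obtain ⟨v0, -, hv0, -, -⟩ := hadj c hc c' hc' hcc.symm
    obtain ⟨x0, hx0⟩ := D.cov v0
    obtain ⟨r, hr⟩ := top_exists D.par D.rk D.hrk (S c) x0
    have hx0S : x0 ∈ S c := ⟨v0, hx0, hv0⟩
    refine ⟨r, top_mem D.par hx0S hr.1, ?_⟩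
    rintro x ⟨v, hv, hfv⟩
    have hpath := hconn v0 v (hv0.trans hfv.symm) (hv0 ▸ hc)
    have gen : ∀ v, ReflTransGen (fun a b => G.Adj a b ∧ f a = f v0 ∧ f b = f v0) v0 v →
        f v = c ∧ ∀ x, v ∈ D.B x → TopOf D.par (S c) x r := by
      intro v h
      induction h with
      | refl =>
        refine ⟨hv0, fun x hx => ?_⟩
        have := c1 v0 x0 x r hx0 hx
        rw [hv0] at this
        exact this hr
      | @tail b e _ h2 ih =>
        obtain ⟨h3, h4, h5⟩ := h2
        obtain ⟨hb, ihb⟩ := ih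
        have he : f e = c := h5.trans hv0
        refine ⟨he, fun x hx => ?_⟩
        obtain ⟨y, hy1, hy2⟩ := D.edge b e h3
        have := c1 e y x r hy2 hx
        rw [he] at this
        exact this (ihb y hy1)
    exact (gen v hpath).2 x hv
  have hKfin : K.Finite := Set.finite_of_ncard_pos (by omega)
  have hKne : K.Nonempty := Set.nonempty_of_ncard_ne_zero (by omega)
  have hNne : Nonempty D.N := by
    obtain ⟨c, hc⟩ := hKne
    obtain ⟨r, -⟩ := c2 c hc
    exact ⟨r⟩
  choose! R hR1 hR2 using c2
  obtain ⟨c0, hc0, hmax⟩ := Set.exists_max_image K (fun c => D.rk (R c)) hKfin hKne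
  have hall : ∀ c ∈ K, R c0 ∈ S c := by
    intro c hc
    by_cases hcc : c = c0
    · rw [hcc]
      exact hR1 c0 hc0
    · obtain ⟨u, v, hu, hv, huv⟩ := hadj c hc c0 hc0 hcc
      obtain ⟨x, hx1, hx2⟩ := D.edge u v huv
      have hxc : x ∈ S c := ⟨u, hx1, hu⟩
      have hxc0 : x ∈ S c0 := ⟨v, hx2, hv⟩
      exact reach_mem D.par D.rk D.hrk (hR2 c0 hc0 x hxc0).1 (hR2 c hc x hxc).1 hxc (hmax c hc)
  have hsub : K ⊆ ((D.B (R c0)).image f : Set C) := by
    intro c hc
    obtain ⟨v, hv, hfv⟩ := hall c hc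
    rw [Finset.mem_coe, Finset.mem_image]
    exact ⟨v, hv, hfv⟩
  have h1 := Set.ncard_le_ncard hsub (Finset.finite_toSet _)
  rw [Set.ncard_coe_finset, hK] at h1
  have h2 := (Finset.card_image_le (s := D.B (R c0)) (f := f)).trans (D.card (R c0))
  omega

end Pool.Agent.H73.NP
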