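import Pool.Agent.H73.NP.T
import Pool.Agent.H76.SW.All

set_option autoImplicit false

namespace Pool.Agent.H73.NP

open Pool.Agent.H76.SW Pool.Agent.H76.SWAll Relation

theorem sil_cl {A P : Type} {gs : P → Option (A × Bool) → P → Prop} {x y : P}
    (h : ReflTransGen (fun a b => gs a none b) x y) : cl gs x = cl gs y := by
  induction h with
  | refl => rfl
  | tail _ h2 ih => exact ih.trans (Quot.sound h2)

theorem cl_sil {A P : Type} {gs : P → Option (A × Bool) → P → Prop} (hs : Symm gs) {x y : P}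
    (h : cl gs x = cl gs y) : ReflTransGen (fun a b => gs a none b) x y := by
  have h1 := Quot.eqvGen_exact h
  clear h
  have hsym : ∀ {a b : P}, ReflTransGen (fun a b => gs a none b) a b →
      ReflTransGen (fun a b => gs a none b) b a := by
    intro a b h
    induction h with
    | refl => exact ReflTransGen.refl
    | tail _ h2 ih => exact ReflTransGen.head (hs _ _ _ h2) ih
  induction h1 with
  | rel a b h => exact ReflTransGen.single h
  | refl a => exact ReflTransGen.refl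
  | symm a b _ ih => exact hsym ih
  | trans a b c _ _ ih1 ih2 => exact ih1.trans ih2

theorem pf_SEP : N_SEP := by
  intro A P gs hs T ι ho
  have key : ∀ z : P, cl gs z ∈ In gs T ι → z ∈ Set.range ι := by
    rintro z ⟨⟨y, hy⟩, hnb⟩
    have h1 := cl_sil hs hy
    have gen : ∀ b, ReflTransGen (fun a b => gs a none b) (ι y) b →
        b ∈ Set.range ι ∧ cl gs b = cl gs z := by
      intro b hb
      induction hb with
      | refl => exact ⟨⟨y, rfl⟩, hy⟩
      | @tail b c _ h2 ih =>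
        obtain ⟨⟨w, hw⟩, hcl⟩ := ih
        have hc : cl gs c = cl gs z := (Quot.sound h2 : cl gs b = cl gs c).symm.trans hcl
        refine ⟨?_, hc⟩
        rw [← hw] at h2
        rcases ho.out w none c h2 with ⟨y', hy', -⟩ | ⟨⟨d, hd⟩, -⟩
        · exact ⟨y', hy'⟩
        · exfalso
          apply hnb
          refine ⟨d, ?_⟩
          rw [← hd, hw]
          exact hcl
    exact (gen z h1).1
  refine ⟨key, ?_⟩
  intro x hx y hxy
  have step : ∀ (x1 y1 : P) (l : Option (A × Bool)), cl gs x1 = x → cl gs y1 = y →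
      gs x1 l y1 → y ∈ Vs gs T ι := by
    intro x1 y1 l h1 h2 h3
    obtain ⟨w, hw⟩ := key x1 (h1 ▸ hx)
    rw [← hw] at h3
    rcases ho.out w l y1 h3 with ⟨y', hy', -⟩ | ⟨⟨d, hd⟩, -⟩
    · refine ⟨y', ?_⟩
      rw [hy']
      exact h2
    · exfalso
      apply hx.2
      refine ⟨d, ?_⟩
      rw [← hd, hw]
      exact h1
  obtain ⟨a, ⟨x1, y1, h1, h2, h3⟩ | ⟨y1, x1, h2, h1, h3⟩⟩ := hxy
  · exact step x1 y1 _ h1 h2 h3
  · exact step x1 y1 _ h1 h2 (hs _ _ _ h3)

theorem pf_CHD (h1 : N_SEP) : N_CHD := by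
  intro A P gs hs n m src tgt ch p q ι h i
  have ho := ok_U_s4_child gs h i
  have hsep := (h1 gs hs (ch i) _ ho).1
  have hinl : ∀ v : Fin n,
      cl gs (ι (Sum.inl v)) ∉ In gs (ch i) (fun x => ι (Sum.inr ⟨i, x⟩)) := by
    intro v hv
    obtain ⟨y, hy⟩ := hsep _ hv
    have := h.inj hy
    cases this
  refine ⟨?_, ?_, hinl, ?_, ?_⟩
  · intro x hx
    obtain ⟨⟨y, hy⟩, hb⟩ := hx
    refine ⟨⟨_, hy⟩, ?_⟩
    rintro ⟨b, hb2⟩
    apply hinl (if b then q else p)
    have : cl gs (ι (Sum.inl (if b then q else p))) = x := hb2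
    rw [this]
    exact ⟨⟨y, hy⟩, hb⟩
  · rintro x ⟨y, hy⟩
    exact ⟨_, hy⟩
  · intro j hj
    rw [Set.disjoint_left]
    rintro x hx ⟨y, hy⟩
    obtain ⟨y', hy'⟩ := hsep (ι (Sum.inr ⟨j, y⟩)) (by rw [hy]; exact hx)
    have := h.inj hy'
    cases this
    exact hj rfl
  · rintro x ⟨b, rfl⟩
    have := (ok_U_s7_node gs h i b).2.2
    rw [this]
    cases b
    · exact Or.inl rfl
    · exact Or.inr rfl

end Pool.Agent.H73.NP
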