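import Pool.Agent.H73.NP.T

set_option autoImplicit false

namespace Pool.Agent.H73.NP

section

variable {Λ : Type} {q : ℕ} (M : NFA Λ (Fin q))

/-- States reached by reading the word, and states reached by reading a proper suffix. -/
def stepF (S : Set (Fin q) × Set (Fin q)) (a : Λ) : Set (Fin q) × Set (Fin q) :=
  (M.stepSet S.1 a, M.start ∪ M.stepSet S.2 a)

def FF (u : List Λ) : Set (Fin q) × Set (Fin q) := u.foldl (stepF M) (M.start, ∅)

theorem FF_append (u v : List Λ) : FF M (u ++ v) = v.foldl (stepF M) (FF M u) := by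
  unfold FF
  rw [List.foldl_append]

theorem FF_fst (u : List Λ) : (FF M u).1 = M.evalFrom M.start u := by
  induction u using List.reverseRecOn with
  | nil => rfl
  | append_singleton u a ih =>
    rw [FF_append, NFA.evalFrom_append, NFA.evalFrom_singleton, ← ih]
    rfl

theorem FF_snd (u : List Λ) (s : Fin q) : s ∈ (FF M u).2 ↔
    ∃ x y, x ≠ [] ∧ u = x ++ y ∧ s ∈ M.evalFrom M.start y := by
  induction u using List.reverseRecOn generalizing s with
  | nil =>
    constructor
    · intro h
      exact absurd h (by simp [FF])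
    · rintro ⟨x, y, hx, hxy, -⟩
      exact (hx (List.append_eq_nil_iff.mp hxy.symm).1).elim
  | append_singleton u a ih =>
    have h1 : (FF M (u ++ [a])).2 = M.start ∪ M.stepSet (FF M u).2 a := by
      rw [FF_append]
      rfl
    rw [h1]
    constructor
    · rintro (h | h)
      · exact ⟨u ++ [a], [], by simp, by simp, h⟩
      · rw [NFA.mem_stepSet] at h
        obtain ⟨t, ht, hst⟩ := h
        obtain ⟨x, y, hx, hxy, hy⟩ := (ih t).mp ht
        refine ⟨x, y ++ [a], hx, by rw [hxy, List.append_assoc], ?_⟩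
        rw [NFA.evalFrom_append, NFA.evalFrom_singleton, NFA.mem_stepSet]
        exact ⟨t, hy, hst⟩
    · rintro ⟨x, y, hx, hxy, hy⟩
      rcases List.eq_nil_or_concat y with rfl | ⟨y', b, rfl⟩
      · exact Or.inl hy
      · right
        rw [List.concat_eq_append, ← List.append_assoc] at hxy
        obtain ⟨h2, h3⟩ := List.append_inj' hxy rfl
        have h4 : a = b := by simpa using h3
        subst h4
        rw [List.concat_eq_append, NFA.evalFrom_append, NFA.evalFrom_singleton,
          NFA.mem_stepSet] at hy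
        obtain ⟨t, ht, hst⟩ := hy
        rw [NFA.mem_stepSet]
        exact ⟨t, (ih t).mpr ⟨x, y', hx, h2, ht⟩, hst⟩

theorem imin_iff (w : List Λ) : IMin M w ↔
    (∃ s ∈ M.accept, s ∈ (FF M w).1) ∧
    (∀ u v, w = u ++ v → v ≠ [] → ∀ s ∈ M.accept, s ∉ (FF M u).1) ∧
    (∀ u v, w = u ++ v → ∀ s ∈ M.accept, s ∉ (FF M u).2) := by
  constructor
  · rintro ⟨h1, h2⟩
    refine ⟨?_, ?_, ?_⟩
    · rw [FF_fst]
      exact h1
    · intro u v huv hv s hs hsu
      rw [FF_fst] at hsu
      have h3 := h2 u ⟨s, hs, hsu⟩ ⟨[], v, by simp [huv]⟩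
      rw [huv] at h3
      exact hv (by simpa using h3)
    · intro u v huv s hs hsu
      obtain ⟨x, y, hx, hxy, hy⟩ := (FF_snd M u s).mp hsu
      have h3 := h2 y ⟨s, hs, hy⟩ ⟨x, v, by rw [huv, hxy]⟩
      have h4 := congrArg List.length h3
      rw [huv, hxy] at h4
      simp only [List.length_append] at h4
      have h5 : x.length = 0 := by omega
      exact hx (List.length_eq_zero_iff.mp h5)
  · rintro ⟨h1, h2, h3⟩
    rw [FF_fst] at h1
    refine ⟨h1, ?_⟩
    rintro w' ⟨s, hs, hsw⟩ ⟨a, b, hab⟩
    by_cases ha : a = []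
    · subst ha
      by_cases hb : b = []
      · subst hb
        simpa using hab
      · exfalso
        refine h2 w' b (by simpa using hab.symm) hb s hs ?_
        rw [FF_fst]
        exact hsw
    · exfalso
      exact h3 (a ++ w') b hab.symm s hs ((FF_snd M _ s).mpr ⟨a, w', ha, rfl, hsw⟩)

theorem imin_pump (a b c : List Λ) (hb : b ≠ []) (hF : FF M a = FF M (a ++ b))
    (h : IMin M (a ++ b ++ c)) : IMin M (a ++ b ++ (b ++ c)) := by
  rw [imin_iff] at h ⊢
  obtain ⟨h1, h2, h3⟩ := h
  have hF2 : ∀ u, FF M (a ++ b ++ u) = FF M (a ++ u) := by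
    intro u
    rw [FF_append, ← hF, ← FF_append]
  have hc : c ≠ [] := by
    rintro rfl
    obtain ⟨s, hs, hs2⟩ := h1
    rw [List.append_nil, ← hF] at hs2
    exact h2 a b (by simp) hb s hs hs2
  have e1 : FF M (a ++ b ++ (b ++ c)) = FF M (a ++ b ++ c) := by
    rw [hF2, ← List.append_assoc]
  -- prefixes of the pumped word
  have pre : ∀ u v, a ++ b ++ (b ++ c) = u ++ v →
      (∃ v', a ++ b ++ c = u ++ v' ∧ v' ≠ []) ∨
      (∃ u', FF M u = FF M (a ++ u') ∧ a ++ b ++ c = a ++ u' ++ v) := by
    intro u v huv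
    rcases List.append_eq_append_iff.mp huv with ⟨x, hx1, hx2⟩ | ⟨x, hx1, hx2⟩
    · -- u = a ++ b ++ x
      right
      refine ⟨x, ?_, ?_⟩
      · rw [hx1, hF2]
      · rw [List.append_assoc, List.append_assoc, hx2]
    · -- a ++ b = u ++ x
      left
      refine ⟨x ++ c, ?_, ?_⟩
      · rw [hx1, List.append_assoc]
      · intro h
        exact hc (List.append_eq_nil_iff.mp h).2
  refine ⟨by rw [e1]; exact h1, ?_, ?_⟩
  · intro u v huv hv s hs hsu
    rcases pre u v huv with ⟨v', hv', hne⟩ | ⟨u', hu', hw⟩
    · exact h2 u v' hv' hne s hs hsu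
    · rw [hu'] at hsu
      exact h2 (a ++ u') v hw hv s hs hsu
  · intro u v huv s hs hsu
    rcases pre u v huv with ⟨v', hv', hne⟩ | ⟨u', hu', hw⟩
    · exact h3 u v' hv' s hs hsu
    · rw [hu'] at hsu
      exact h3 (a ++ u') v hw s hs hsu

theorem cut_count (p : Λ → Bool) (w : List Λ) : ∀ j, j ≤ w.countP p →
    ∃ a c, w = a ++ c ∧ a.countP p = j := by
  induction w with
  | nil =>
    intro j hj
    refine ⟨[], [], rfl, ?_⟩
    rw [List.countP_nil] at hj ⊢
    omega
  | cons x w ih =>
    intro j hj
    rw [List.countP_cons] at hj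
    by_cases hx : p x = true
    · rcases j with _ | j
      · exact ⟨[], x :: w, rfl, rfl⟩
      · rw [if_pos hx] at hj
        obtain ⟨a, c, h1, h2⟩ := ih j (by omega)
        exact ⟨x :: a, c, by rw [h1]; rfl, by rw [List.countP_cons, if_pos hx, h2]⟩
    · rw [if_neg hx] at hj
      obtain ⟨a, c, h1, h2⟩ := ih j (by omega)
      exact ⟨x :: a, c, by rw [h1]; rfl, by rw [List.countP_cons, if_neg hx, h2]; rfl⟩

theorem pump_once (p : Λ → Bool) (w : List Λ) (hw : IMin M w) (h : 4 ^ q < w.countP p) :
    ∃ w', IMin M w' ∧ w.countP p < w'.countP p := by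
  classical
  have hcut := fun j : Fin (w.countP p + 1) => cut_count p w j.1 (Nat.lt_succ_iff.mp j.2)
  choose A C hA hcount using hcut
  have hcard : Fintype.card (Set (Fin q) × Set (Fin q)) <
      Fintype.card (Fin (w.countP p + 1)) := by
    rw [Fintype.card_prod, Fintype.card_set, Fintype.card_fin, Fintype.card_fin, ← mul_pow]
    norm_num
    omega
  obtain ⟨i, j, hij, hF⟩ := Fintype.exists_ne_map_eq_of_card_lt (fun j => FF M (A j)) hcard
  have main : ∀ i j : Fin (w.countP p + 1), (i : ℕ) < j → FF M (A i) = FF M (A j) →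
      ∃ w', IMin M w' ∧ w.countP p < w'.countP p := by
    intro i j hij hF
    have hp1 : A i <+: w := ⟨C i, (hA i).symm⟩
    have hp2 : A j <+: w := ⟨C j, (hA j).symm⟩
    rcases List.prefix_or_prefix_of_prefix hp1 hp2 with ⟨b, hb⟩ | hle
    · have hcb : b.countP p = (j : ℕ) - i := by
        have := congrArg (List.countP p) hb
        rw [List.countP_append, hcount, hcount] at this
        omega
      have hbne : b ≠ [] := by
        rintro rfl
        simp at hcb
        omega
      have hw2 : w = A i ++ b ++ C j := by rw [hb, ← hA j]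
      refine ⟨A i ++ b ++ (b ++ C j), imin_pump M _ _ _ hbne (by rw [hb]; exact hF)
        (hw2 ▸ hw), ?_⟩
      have e1 : w.countP p = (A i).countP p + b.countP p + (C j).countP p := by
        conv_lhs => rw [hw2]
        rw [List.countP_append, List.countP_append]
      rw [List.countP_append, List.countP_append, List.countP_append, e1]
      omega
    · exfalso
      obtain ⟨x, hx⟩ := hle
      have := congrArg (List.countP p) hx
      rw [List.countP_append, hcount, hcount] at this
      omega
  rcases Nat.lt_or_gt_of_ne (fun h => hij (Fin.ext h)) with h1 | h1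
  · exact main i j h1 hF
  · exact main j i h1 hF.symm

end

theorem pf_PUM : N_PUM := by
  classical
  intro Λ q M p
  refine ⟨?_, ?_⟩
  · intro w hw
    induction hn : w.length using Nat.strong_induction_on generalizing w with
    | _ n ih =>
      subst hn
      by_cases h : IMin M w
      · exact ⟨w, h, List.infix_refl w⟩
      · unfold IMin at h
        push Not at h
        obtain ⟨w', hw', hinf, hne⟩ := h hw
        have hlt : w'.length < w.length := by
          rcases Nat.lt_or_ge w'.length w.length with h1 | h1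
          · exact h1
          · exact (hne (hinf.eq_of_length_le h1)).elim
        obtain ⟨w'', h1, h2⟩ := ih w'.length hlt w' hw' rfl
        exact ⟨w'', h1, h2.trans hinf⟩
  · intro w hw hcount m
    have gen : ∀ m, ∃ w', IMin M w' ∧ m < w'.countP p ∧ 4 ^ q < w'.countP p := by
      intro m
      induction m with
      | zero => exact ⟨w, hw, (Nat.zero_le _).trans_lt hcount, hcount⟩
      | succ m ih =>
        obtain ⟨w', h1, h2, h3⟩ := ih
        obtain ⟨w'', h4, h5⟩ := pump_once M p w' h1 h3
        exact ⟨w'', h4, by omega, by omega⟩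
    obtain ⟨w', h1, h2, -⟩ := gen m
    exact ⟨w', h1, h2⟩

end Pool.Agent.H73.NP
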