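import Pool.Agent.H73.NP.CHN
import Pool.Agent.H69.SW.E1

set_option autoImplicit false

namespace Pool.Agent.H73.NP

open Pool.Agent.H76.SW

theorem one_mem {Λ : Type} (l : Λ) : [l] ∈ (one l).accepts := by
  rw [NFA.mem_accepts]
  refine ⟨1, rfl, ?_⟩
  rw [NFA.evalFrom_singleton, NFA.mem_stepSet]
  exact ⟨0, rfl, rfl, rfl, rfl⟩

theorem beta_of_edges {A V : Type} {k : ℕ} {E : V → Alp A k → V → Prop} (μ : Fin (k + 3) → V)
    (h : ∀ e, GE k e → E (μ e.1) (Sum.inr e) (μ e.2)) :
    (beta A k).Sat E (μ 0) (μ (Fin.last (k + 2))) := by
  refine ⟨μ, ?_, rfl, rfl⟩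
  intro i
  refine ⟨_, one_mem _, ?_⟩
  refine Path.cons _ _ _ _ _ ?_ (Path.nil _)
  exact h _ ((Fintype.equivFin {e : Fin (k + 3) × Fin (k + 3) // GE k e}).symm i).2

theorem pf_SAT : N_SAT := by
  intro A k hk w hw
  refine Pool.Agent.H69.SW.path_of w (fun i => Sum.inl i) ?_
  intro i
  rcases hw _ (List.get_mem w i) with h | ⟨a, h⟩
  · rw [h]
    show (beta A k).Sat (cE w) (Sum.inl i.castSucc) (Sum.inl i.succ)
    rw [← gv_zero (k := k) i, ← gv_last (k := k) i]
    exact beta_of_edges (gv i) fun e he => cE_gad h e.1 e.2 he
  · rw [h]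
    exact cE_let h

theorem pf_EXM : N_EXM := by
  classical
  intro k
  let M : NFA (Lt Bool k) (Fin 3) :=
    { step := fun s l => {t | (s = 0 ∧ l = lt true ∧ t = 1) ∨ (s = 1 ∧ l = bt ∧ t = 1) ∨
        (s = 1 ∧ l = lt false ∧ t = 2)}
      start := {0}
      accept := {2} }
  have hstep : ∀ s l t, t ∈ M.step s l ↔ (s = 0 ∧ l = lt true ∧ t = 1) ∨
      (s = 1 ∧ l = bt ∧ t = 1) ∨ (s = 1 ∧ l = lt false ∧ t = 2) := fun s l t => Iff.rfl
  have hempty : ∀ w, M.evalFrom ∅ w = ∅ := by
    intro w
    induction w with
    | nil => rfl
    | cons a t ih =>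
      rw [NFA.evalFrom_cons]
      have : M.stepSet ∅ a = ∅ := by simp
      rw [this, ih]
  have s2 : ∀ w, (2 : Fin 3) ∈ M.evalFrom {2} w ↔ w = [] := by
    intro w
    cases w with
    | nil => simp
    | cons a t =>
      rw [NFA.evalFrom_cons]
      have : M.stepSet {2} a = ∅ := by
        ext t
        rw [NFA.stepSet_singleton, hstep]
        simp
      rw [this, hempty]
      simp
  have s1 : ∀ w, (2 : Fin 3) ∈ M.evalFrom {1} w ↔ ∃ n, w = List.replicate n bt ++ [lt false] := by
    intro w
    induction w with
    | nil =>
      constructor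
      · intro h
        exact absurd h (by simp)
      · rintro ⟨n, hn⟩
        simp at hn
    | cons a t ih =>
      rw [NFA.evalFrom_cons]
      by_cases ha : a = bt
      · subst ha
        have : M.stepSet {1} bt = {1} := by
          ext t
          rw [NFA.stepSet_singleton, hstep]
          simp [bt, lt]
        rw [this, ih]
        constructor
        · rintro ⟨n, rfl⟩
          exact ⟨n + 1, rfl⟩
        · rintro ⟨n, hn⟩
          rcases n with _ | n
          · exact absurd (List.cons.inj hn).1 (by simp [bt, lt])
          · exact ⟨n, (List.cons.inj hn).2⟩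
      · by_cases hb : a = lt false
        · subst hb
          have : M.stepSet {1} (lt false) = {2} := by
            ext t
            rw [NFA.stepSet_singleton, hstep]
            simp [bt, lt]
          rw [this, s2]
          constructor
          · rintro rfl
            exact ⟨0, rfl⟩
          · rintro ⟨n, hn⟩
            rcases n with _ | n
            · exact (List.cons.inj hn).2
            · exact absurd (List.cons.inj hn).1 ha
        · have : M.stepSet {1} a = ∅ := by
            ext t
            rw [NFA.stepSet_singleton, hstep]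
            simp [ha, hb]
          rw [this, hempty]
          constructor
          · intro h
            exact absurd h (by simp)
          · rintro ⟨n, hn⟩
            rcases n with _ | n
            · exact absurd (List.cons.inj hn).1 hb
            · exact absurd (List.cons.inj hn).1 ha
  refine ⟨M, fun w => ?_⟩
  rw [NFA.mem_accepts]
  have hacc : (∃ s ∈ M.accept, s ∈ M.evalFrom M.start w) ↔ (2 : Fin 3) ∈ M.evalFrom {0} w := by
    constructor
    · rintro ⟨s, hs, h⟩
      have : s = 2 := hs
      subst this
      exact h
    · intro h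
      exact ⟨2, rfl, h⟩
  rw [hacc]
  cases w with
  | nil =>
    constructor
    · intro h
      exact absurd h (by simp)
    · rintro ⟨n, hn⟩
      simp at hn
  | cons a t =>
    rw [NFA.evalFrom_cons]
    by_cases ha : a = lt true
    · subst ha
      have : M.stepSet {0} (lt true) = {1} := by
        ext t
        rw [NFA.stepSet_singleton, hstep]
        simp
      rw [this, s1]
      constructor
      · rintro ⟨n, rfl⟩
        exact ⟨n, rfl⟩
      · rintro ⟨n, hn⟩
        exact ⟨n, (List.cons.inj hn).2⟩
    · have : M.stepSet {0} a = ∅ := by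
        ext t
        rw [NFA.stepSet_singleton, hstep]
        simp [ha]
      rw [this, hempty]
      constructor
      · intro h
        exact absurd h (by simp)
      · rintro ⟨n, hn⟩
        exact absurd (List.cons.inj hn).1 ha

end Pool.Agent.H73.NP
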