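import Pool.Agent.H73.NP.PUM

set_option autoImplicit false

namespace Pool.Agent.H73.NP

section

variable {Λ : Type} {q : ℕ} (M : NFA Λ (Fin q))

theorem imin_cut (a b c : List Λ) (hF : FF M a = FF M (a ++ b))
    (h : IMin M (a ++ b ++ c)) : IMin M (a ++ c) := by
  rw [imin_iff] at h ⊢
  obtain ⟨h1, h2, h3⟩ := h
  have hF2 : ∀ u, FF M (a ++ b ++ u) = FF M (a ++ u) := by
    intro u
    rw [FF_append, ← hF, ← FF_append]
  have pre : ∀ u v, a ++ c = u ++ v → ∃ u' v', FF M u = FF M u' ∧ a ++ b ++ c = u' ++ v' ∧
      (v ≠ [] → v' ≠ []) := by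
    intro u v huv
    rcases List.append_eq_append_iff.mp huv with ⟨x, hx1, hx2⟩ | ⟨x, hx1, hx2⟩
    · -- u = a ++ x, c = x ++ v
      refine ⟨a ++ b ++ x, v, ?_, ?_, id⟩
      · rw [hx1, hF2]
      · rw [hx2, List.append_assoc (a ++ b)]
    · -- a = u ++ x, v = x ++ c
      refine ⟨u, x ++ b ++ c, rfl, ?_, ?_⟩
      · rw [hx1]
        simp [List.append_assoc]
      · intro hv hcon
        apply hv
        rw [hx2]
        rw [List.append_assoc] at hcon
        have h5 := List.append_eq_nil_iff.mp hcon
        rw [h5.1, (List.append_eq_nil_iff.mp h5.2).2]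
        rfl
  refine ⟨by rw [← hF2]; exact h1, ?_, ?_⟩
  · intro u v huv hv s hs hsu
    obtain ⟨u', v', e1, e2, e3⟩ := pre u v huv
    rw [e1] at hsu
    exact h2 u' v' e2 (e3 hv) s hs hsu
  · intro u v huv s hs hsu
    obtain ⟨u', v', e1, e2, -⟩ := pre u v huv
    rw [e1] at hsu
    exact h3 u' v' e2 s hs hsu

theorem card_state : Fintype.card (Set (Fin q) × Set (Fin q)) = 4 ^ q := by
  classical
  rw [Fintype.card_prod, Fintype.card_set, Fintype.card_fin, ← mul_pow]
  norm_num

theorem shorten (p : Λ → Bool) (w : List Λ) (hw : IMin M w) (h : 4 ^ q < w.countP p)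
    (hl : 3 * 16 ^ q < w.length) :
    ∃ w', IMin M w' ∧ 4 ^ q < w'.countP p ∧ w'.length < w.length := by
  classical
  set N := 4 ^ q with hN
  have hNN : 16 ^ q = N * N := by
    rw [hN, ← mul_pow]
    norm_num
  have hN1 : 1 ≤ N := Nat.one_le_pow _ _ (by norm_num)
  by_cases hM : 2 * N < w.countP p
  · -- cut a loop with at most N marks
    have hcut := fun j : Fin (N + 1) => cut_count p w j.1 (by
      have := j.2
      omega)
    choose A C hA hcount using hcut
    have hcard : Fintype.card (Set (Fin q) × Set (Fin q)) < Fintype.card (Fin (N + 1)) := by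
      rw [card_state, Fintype.card_fin]
      omega
    obtain ⟨i, j, hij, hF⟩ := Fintype.exists_ne_map_eq_of_card_lt (fun j => FF M (A j)) hcard
    have main : ∀ i j : Fin (N + 1), (i : ℕ) < j → FF M (A i) = FF M (A j) →
        ∃ w', IMin M w' ∧ N < w'.countP p ∧ w'.length < w.length := by
      intro i j hij hF
      have hp1 : A i <+: w := ⟨C i, (hA i).symm⟩
      have hp2 : A j <+: w := ⟨C j, (hA j).symm⟩
      rcases List.prefix_or_prefix_of_prefix hp1 hp2 with ⟨b, hb⟩ | hle
      · have hcb : b.countP p = (j : ℕ) - i := by
          have := congrArg (List.countP p) hb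
          rw [List.countP_append, hcount, hcount] at this
          omega
        have hbl : 0 < b.length := by
          rcases b with _ | ⟨x, b⟩
          · simp at hcb
            omega
          · simp
        have hw2 : w = A i ++ b ++ C j := by rw [hb, ← hA j]
        refine ⟨A i ++ C j, imin_cut M _ b _ (by rw [hb]; exact hF) (hw2 ▸ hw), ?_, ?_⟩
        · have e1 : w.countP p = (A i).countP p + b.countP p + (C j).countP p := by
            conv_lhs => rw [hw2]
            rw [List.countP_append, List.countP_append]
          rw [List.countP_append]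
          have := j.2
          omega
        · have e2 : w.length = (A i).length + b.length + (C j).length := by
            conv_lhs => rw [hw2]
            rw [List.length_append, List.length_append]
          rw [List.length_append]
          omega
      · exfalso
        obtain ⟨x, hx⟩ := hle
        have := congrArg (List.countP p) hx
        rw [List.countP_append, hcount, hcount] at this
        omega
    rcases Nat.lt_or_gt_of_ne (fun h => hij (Fin.ext h)) with h1 | h1
    · exact main i j h1 hF
    · exact main j i h1 hF.symm
  · -- cut a loop without marks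
    have hcard : Fintype.card ((Set (Fin q) × Set (Fin q)) × Fin (2 * N + 1)) <
        Fintype.card (Fin (w.length + 1)) := by
      rw [Fintype.card_prod, card_state, Fintype.card_fin, Fintype.card_fin]
      rw [hNN] at hl
      have : N * (2 * N + 1) = 2 * (N * N) + N := by ring
      have h3 : N ≤ N * N := Nat.le_mul_of_pos_left N hN1
      change N * (2 * N + 1) < w.length + 1
      rw [this]
      omega
    have hle : ∀ i : Fin (w.length + 1), (w.take i).countP p < 2 * N + 1 := by
      intro i
      have : (w.take i).countP p ≤ w.countP p := (List.take_sublist _ _).countP_le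
      omega
    obtain ⟨i, j, hij, hF⟩ := Fintype.exists_ne_map_eq_of_card_lt
      (fun i : Fin (w.length + 1) =>
        ((FF M (w.take i), ⟨(w.take i).countP p, hle i⟩) :
          (Set (Fin q) × Set (Fin q)) × Fin (2 * N + 1))) hcard
    have main : ∀ i j : Fin (w.length + 1), (i : ℕ) < j → FF M (w.take i) = FF M (w.take j) →
        (w.take i).countP p = (w.take j).countP p →
        ∃ w', IMin M w' ∧ N < w'.countP p ∧ w'.length < w.length := by
      intro i j hij hF hcnt
      have hj : (j : ℕ) ≤ w.length := Nat.lt_succ_iff.mp j.2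
      obtain ⟨b, hb⟩ : w.take i <+: w.take j :=
        List.take_prefix_take_left (by omega)
      have hw2 : w = w.take i ++ b ++ w.drop j := by
        rw [hb, List.take_append_drop]
      have hbl : b.length = (j : ℕ) - i := by
        have := congrArg List.length hb
        rw [List.length_append, List.length_take, List.length_take] at this
        omega
      have hcb : b.countP p = 0 := by
        have := congrArg (List.countP p) hb
        rw [List.countP_append] at this
        omega
      refine ⟨w.take i ++ w.drop j, imin_cut M _ b _ (by rw [hb]; exact hF) (hw2 ▸ hw), ?_, ?_⟩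
      · have e1 : w.countP p = (w.take i).countP p + b.countP p + (w.drop j).countP p := by
          conv_lhs => rw [hw2]
          rw [List.countP_append, List.countP_append]
        rw [List.countP_append]
        omega
      · have e2 : w.length = (w.take i).length + b.length + (w.drop j).length := by
          conv_lhs => rw [hw2]
          rw [List.length_append, List.length_append]
        rw [List.length_append]
        omega
    have hF1 := (Prod.mk.inj hF).1
    have hF2 : (w.take i).countP p = (w.take j).countP p :=
      congrArg Fin.val (Prod.mk.inj hF).2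
    rcases Nat.lt_or_gt_of_ne (fun h => hij (Fin.ext h)) with h1 | h1
    · exact main i j h1 hF1 hF2
    · exact main j i h1 hF1.symm hF2.symm

theorem short (p : Λ → Bool) (w : List Λ) (hw : IMin M w) (h : 4 ^ q < w.countP p) :
    ∃ w', IMin M w' ∧ 4 ^ q < w'.countP p ∧ w'.length ≤ 3 * 16 ^ q := by
  induction hn : w.length using Nat.strong_induction_on generalizing w with
  | _ n ih =>
    subst hn
    by_cases hl : w.length ≤ 3 * 16 ^ q
    · exact ⟨w, hw, h, hl⟩
    · obtain ⟨w', h1, h2, h3⟩ := shorten M p w hw h (by omega)
      exact ih w'.length h3 w' h1 h2 rfl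

/-- The criterion is a finite check. -/
theorem crit_short (p : Λ → Bool) :
    (∀ w ∈ M.accepts, ∃ w' ∈ M.accepts, w' <:+: w ∧ w'.countP p ≤ 4 ^ q) ↔
    ∀ w ∈ M.accepts, w.length ≤ 3 * 16 ^ q →
      ∃ w' ∈ M.accepts, w' <:+: w ∧ w'.countP p ≤ 4 ^ q := by
  constructor
  · intro h w hw _
    exact h w hw
  · intro h w hw
    obtain ⟨w1, h1, h2⟩ := (pf_PUM M p).1 w hw
    by_cases hc : w1.countP p ≤ 4 ^ q
    · exact ⟨w1, h1.1, h2, hc⟩
    · exfalso
      obtain ⟨w2, a1, a2, a3⟩ := short M p w1 h1 (by omega)
      obtain ⟨w3, b1, b2, b3⟩ := h w2 a1.1 a3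
      rw [a1.2 w3 b1 b2] at b3
      omega

end

end Pool.Agent.H73.NP
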