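import Pool.Agent.H73.NP.Defs

/-!
Statements of the modules.
-/

set_option autoImplicit false
set_option linter.unusedVariables false

namespace Pool.Agent.H73.NP

open Pool.Agent.H76.SW Relation

/-- Tree decomposition with two bags. -/
def N_TWO : Prop :=
  ∀ {V : Type} [Finite V] (G : SimpleGraph V) (k : ℕ) (B0 B1 : Finset V),
    (∀ v, v ∈ B0 ∨ v ∈ B1) → (∀ u v, G.Adj u v → (u ∈ B0 ∧ v ∈ B0) ∨ (u ∈ B1 ∧ v ∈ B1)) →
    B0.card ≤ k + 1 → B1.card ≤ k + 1 → TreeWidthLE G k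

/-- A graph of tree-width at most `k` has no complete minor of order `k + 2`; the branch sets
are the fibres of `f` over `K`. -/
def N_MIN : Prop :=
  ∀ {n k : ℕ} (G : SimpleGraph (Fin n)), TreeWidthLE G k →
    ∀ {C : Type} (f : Fin n → C) (K : Set C), K.ncard = k + 2 →
    (∀ x y, f x = f y → f x ∈ K →
      ReflTransGen (fun a b => G.Adj a b ∧ f a = f x ∧ f b = f x) x y) →
    (∀ c ∈ K, ∀ c' ∈ K, c ≠ c' → ∃ x y, f x = c ∧ f y = c' ∧ G.Adj x y) → False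

/-- The class of an inner node of an occurrence lies inside, and so do its neighbours. -/
def N_SEP : Prop :=
  ∀ {A P : Type} (gs : P → Option (A × Bool) → P → Prop) (hs : Symm gs) (T : Term A)
    (ι : T.Pos → P) (h : Occ gs T ι),
    (∀ z : P, cl gs z ∈ In gs T ι → z ∈ Set.range ι) ∧
    ∀ x ∈ In gs T ι, ∀ y, adj gs x y → y ∈ Vs gs T ι

/-- Children. -/
def N_CHD : Prop :=
  ∀ {A P : Type} (gs : P → Option (A × Bool) → P → Prop) (hs : Symm gs) {n m : ℕ}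
    {src tgt : Fin m → Fin n} {ch : Fin m → Term A} {p q : Fin n}
    {ι : (Term.node n m src tgt ch p q).Pos → P}
    (h : Occ gs (Term.node n m src tgt ch p q) ι) (i : Fin m),
    In gs (ch i) (fun x => ι (Sum.inr ⟨i, x⟩)) ⊆ In gs (Term.node n m src tgt ch p q) ι ∧
    Vs gs (ch i) (fun x => ι (Sum.inr ⟨i, x⟩)) ⊆ Vs gs (Term.node n m src tgt ch p q) ι ∧
    (∀ v : Fin n, cl gs (ι (Sum.inl v)) ∉ In gs (ch i) (fun x => ι (Sum.inr ⟨i, x⟩))) ∧
    (∀ j, j ≠ i → Disjoint (In gs (ch i) (fun x => ι (Sum.inr ⟨i, x⟩)))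
      (Vs gs (ch j) (fun x => ι (Sum.inr ⟨j, x⟩)))) ∧
    ∀ x ∈ Bd gs (ch i) (fun x => ι (Sum.inr ⟨i, x⟩)),
      x = cl gs (ι (Sum.inl (src i))) ∨ x = cl gs (ι (Sum.inl (tgt i)))

/-- A complete graph of order `k + 2` with an inner node, but without inner nodes of children,
contains the ports. -/
def N_CPT : Prop :=
  ∀ {A P : Type} (gs : P → Option (A × Bool) → P → Prop) (hs : Symm gs) {n m k : ℕ}
    {src tgt : Fin m → Fin n} {ch : Fin m → Term A} {p q : Fin n}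
    {ι : (Term.node n m src tgt ch p q).Pos → P}
    (h : Occ gs (Term.node n m src tgt ch p q) ι) (ht : TreeWidthLE (torso src tgt) k)
    (K : Set (Cv gs)) (hK : K.ncard = k + 2) (hc : ∀ x ∈ K, ∀ y ∈ K, x ≠ y → adj gs x y)
    (hn : (K ∩ In gs (Term.node n m src tgt ch p q) ι).Nonempty)
    (he : ∀ i, K ∩ In gs (ch i) (fun x => ι (Sum.inr ⟨i, x⟩)) = ∅),
    Bd gs (Term.node n m src tgt ch p q) ι ⊆ K

/-- Every set with an inner node is captured. -/
def N_ALT : Prop :=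
  ∀ {A P : Type} (gs : P → Option (A × Bool) → P → Prop) (T : Term A) (ι : T.Pos → P)
    (K : Set (Cv gs)) (g : Set (Cv gs) → Prop), (K ∩ In gs T ι).Nonempty →
    RC gs K g T ι ∨ RC gs K (fun B => ¬ g B) T ι

/-- The number of complete graphs captured in one direction is at most the depth. -/
def N_CNT : Prop :=
  ∀ {A P : Type} (gs : P → Option (A × Bool) → P → Prop) (hs : Symm gs) (k : ℕ) (hk : 1 ≤ k)
    {J : Type} [LinearOrder J] (K : J → Set (Cv gs)) (g : J → Set (Cv gs) → Prop)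
    (h1 : ∀ i, (K i).ncard = k + 2) (h2 : ∀ i, ∀ x ∈ K i, ∀ y ∈ K i, x ≠ y → adj gs x y)
    (h3 : ∀ i j, i ≠ j → Disjoint (K i) (K j))
    (h4 : ∀ (i : J) (I B : Set (Cv gs)), (∀ x ∈ I, ∀ y, adj gs x y → y ∉ B → y ∈ I) →
      B ⊆ K i → (∃ a b, B ⊆ {a, b}) → K i \ B ⊆ I → g i B → ∀ j, i < j → K j ⊆ I)
    (T : Term A) (hT : T.Width k) (ι : T.Pos → P) (ho : Occ gs T ι) (S : Finset J)
    (hS : ∀ i ∈ S, (K i ∩ In gs T ι).Nonempty ∧ RC gs (K i) (g i) T ι),
    S.card ≤ dp T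

/-- The complete graphs in the database of a word, and the closure properties to both sides. -/
def N_CHN : Prop :=
  ∀ {A C : Type} {k : ℕ} (hk : 1 ≤ k) (w : List (Lt A k)) (hw : ∀ l ∈ w, Ok l)
    (ad : C → C → Prop) (hsym : ∀ x y, ad x y → ad y x) (c : Vx k w.length → C)
    (hc : ∀ u l v, cE w u l v → ad (c u) (c v)) (hi : Inj w c),
    (∀ i, w.get i = bt → (KK w c i).ncard = k + 2 ∧
      ∀ x ∈ KK w c i, ∀ y ∈ KK w c i, x ≠ y → ad x y) ∧
    (∀ i j, w.get i = bt → w.get j = bt → i ≠ j → Disjoint (KK w c i) (KK w c j)) ∧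
    ∀ i j, w.get i = bt → w.get j = bt → ∀ I B : Set C,
      (∀ x ∈ I, ∀ y, ad x y → y ∉ B → y ∈ I) → B ⊆ KK w c i → (∃ a b, B ⊆ {a, b}) →
      KK w c i \ B ⊆ I →
      (c (Sum.inl i.castSucc) ∈ B → i < j → KK w c j ⊆ I) ∧
      (c (Sum.inl i.castSucc) ∉ B → j < i → KK w c j ⊆ I)

/-- The number of gadgets in the canonical database of a term is at most twice the depth. -/
def N_COL : Prop :=
  ∀ {A : Type} {k : ℕ} (hk : 1 ≤ k) (w : List (Lt A k)) (hw : ∀ l ∈ w, Ok l)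
    (T : Term (Alp A k)) (hT : T.Width k) (c : Vx k w.length → Cv T.stp)
    (hc : ∀ u l v, cE w u l v → canon T.stp (c u) l (c v)) (hi : Inj w c),
    nb w ≤ 2 * dp T

/-- Homomorphisms into the database of a word. -/
def N_RIG : Prop :=
  ∀ {A V : Type} {k : ℕ} (hk : 1 ≤ k) (w w' : List (Lt A k)) (hw : ∀ l ∈ w, Ok l)
    (hw' : ∀ l ∈ w', Ok l) (E : V → Alp A k → V → Prop) (π : V → Vx k w.length)
    (hπ : ∀ x l y, E x l y → cE w (π x) l (π y)) (u v : V) (hp : PathB E u w' v),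
    w' <:+: w ∧
    (w' = w → ∃ c : Vx k w.length → V, (∀ x l y, cE w x l y → E (c x) l (c y)) ∧
      ∀ x l y, cE w x l y → π (c x) = x ∧ π (c y) = y)

/-- The word can be read in its database. -/
def N_SAT : Prop :=
  ∀ {A : Type} {k : ℕ} (hk : 1 ≤ k) (w : List (Lt A k)) (hw : ∀ l ∈ w, Ok l),
    PathB (cE w) (Sum.inl 0) w (Sum.inl (Fin.last w.length))

/-- One gadget followed by a condition, with tree-width at most `k`. -/
def N_PSG : Prop :=
  ∀ {A : Type} {k : ℕ} (hk : 1 ≤ k) (ρ : RQ (Alp A k)) (hρ : ρ.Width k),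
    ∃ G : RQ (Alp A k), G.Width k ∧
      ∀ (V : Type) (E : V → Alp A k → V → Prop) (x x' : V),
        G.Sat E x x' ↔ x = x' ∧ ∃ y, (beta A k).Sat E x y ∧ ρ.Sat E y y

/-- Words with at most `m` further symbols, with tree-width at most `k`. -/
def N_POS : Prop :=
  ∀ {A : Type} {k q : ℕ} (hk : 1 ≤ k) (M : NFA (Lt A k) (Fin q))
    (hM : ∀ w ∈ M.accepts, ∀ l ∈ w, Ok l) (m : ℕ),
    ∃ Δ : Query (Alp A k) 0, Δ.Width k ∧
      ∀ (V : Type) (E : V → Alp A k → V → Prop) (z : Fin 0 → V),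
        Δ.Sat E z ↔ ∃ w ∈ M.accepts, nb w ≤ m ∧ ∃ u v, PathB E u w v

/-- The path queries have tree-width at most `k + 1`. -/
def N_WID : Prop :=
  ∀ {A : Type} {k q : ℕ} (hk : 1 ≤ k) (M : NFA (Lt A k) (Fin q)), (pathQ M).Width (k + 1)

/-- Expansions of bounded depth. -/
def N_DEP : Prop :=
  ∀ {A : Type} (k : ℕ) (hk : 1 ≤ k) (t : CRQ A 0) (ht : t.Width k),
    ∃ d : ℕ, ∀ (V : Type) (hV : Nonempty V) (E : V → A → V → Prop) (z : Fin 0 → V)
      (h : t.Sat E z),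
      ∃ T : Term A, T.Width k ∧ dp T ≤ d ∧ (∃ u v, T.Sat E u v) ∧
        ∀ (V' : Type) (E' : V' → A → V' → Prop) (u' v' : V') (z' : Fin 0 → V'),
          T.Sat E' u' v' → t.Sat E' z'

/-- The canonical database of a satisfied term has a homomorphism. -/
def N_HOM : Prop :=
  ∀ {A V : Type} (T : Term A) (E : V → A → V → Prop) (u v : V), T.Sat E u v →
    ∃ φ : Cv T.stp → V, ∀ x a y, canon T.stp x a y → E (φ x) a (φ y)

/-- Pumping, and existence of minimal infixes. -/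
def N_PUM : Prop :=
  ∀ {Λ : Type} {q : ℕ} (M : NFA Λ (Fin q)) (p : Λ → Bool),
    (∀ w ∈ M.accepts, ∃ w', IMin M w' ∧ w' <:+: w) ∧
    ∀ w : List Λ, IMin M w → 4 ^ q < w.countP p → ∀ m, ∃ w', IMin M w' ∧ m < w'.countP p

/-- The language `a b* c` with the further symbol `b`. -/
def N_EXM : Prop :=
  ∀ k : ℕ, ∃ M : NFA (Lt Bool k) (Fin 3), ∀ w, w ∈ M.accepts ↔
    ∃ n, w = lt true :: (List.replicate n bt ++ [lt false])

/-- A query of tree-width at most `k` contained in a path query holds only in the databases of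
minimal words with few further symbols. -/
def N_KEY : Prop :=
  ∀ {A : Type} {k q : ℕ} (hk : 1 ≤ k) (M : NFA (Lt A k) (Fin q))
    (hM : ∀ w ∈ M.accepts, ∀ l ∈ w, Ok l) (Ω : Query (Alp A k) 0) (hΩ : Ω.Width k)
    (hle : Ω.Le (pathQ M)),
    ∃ D : ℕ, ∀ w, IMin M w → ∀ z, Ω.Sat (cE w) z → nb w ≤ D

end Pool.Agent.H73.NP
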