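import Pool.Agent.H73.NP.T
import Pool.Agent.H76.SW.All

set_option autoImplicit false

namespace Pool.Agent.H73.NP

open Pool.Agent.H76.SW Pool.Agent.H76.SWAll

theorem pf_TWO : N_TWO := by
  classical
  intro V _ G k B0 B1 hcov hedge h0 h1
  refine ok_U_d3_unroot G k ⟨?_⟩
  refine
    { N := Bool
      fin := inferInstance
      par := fun b => if b then some false else none
      rk := fun b => if b then 1 else 0
      hrk := ?_
      B := fun b => if b then B1 else B0
      cov := ?_
      edge := ?_
      conn := ?_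
      card := ?_ }
  · intro x y h
    cases x
    · simp at h
    · simp only [if_true, Option.some.injEq] at h
      subst h
      simp
  · intro v
    rcases hcov v with h | h
    · exact ⟨false, by simpa using h⟩
    · exact ⟨true, by simpa using h⟩
  · intro u v huv
    rcases hedge u v huv with ⟨a, b⟩ | ⟨a, b⟩
    · exact ⟨false, by simpa using a, by simpa using b⟩
    · exact ⟨true, by simpa using a, by simpa using b⟩
  · intro v
    by_cases hv : v ∈ B0
    · refine ⟨false, by simpa using hv, fun x hx => ?_⟩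
      cases x
      · exact Or.inl rfl
      · exact Or.inr ⟨false, by simp, by simpa using hv⟩
    · have hv1 : v ∈ B1 := (hcov v).resolve_left hv
      refine ⟨true, by simpa using hv1, fun x hx => ?_⟩
      cases x
      · exact (hv (by simpa using hx)).elim
      · exact Or.inl rfl
  · intro x
    cases x
    · simpa using h0
    · simpa using h1

theorem pf_WID (h : N_TWO) : N_WID := by
  classical
  intro A k q hk M t ht
  have ht2 := List.mem_singleton.mp (show t ∈ ([_] : List (CRQ (Alp A k) 0)) from ht)
  subst ht2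
  refine ⟨ok_U_d6_small _ (k + 1) (by
    show Fintype.card (Fin 2) ≤ k + 1 + 1
    simp), ?_⟩
  intro _
  refine ⟨?_, fun j => j.elim0⟩
  let B0 : Finset (Fin (k + 3)) := Finset.univ.filter fun s => (s : ℕ) ≤ k + 1
  let B1 : Finset (Fin (k + 3)) := Finset.univ.filter fun s =>
    (s : ℕ) = 1 ∨ (s : ℕ) = 2 ∨ (s : ℕ) = k + 2
  refine h (V := Fin (k + 3)) (gadget A k).graph (k + 1) B0 B1 ?_ ?_ ?_ ?_
  · intro v
    by_cases hv : (v : ℕ) ≤ k + 1
    · exact Or.inl (Finset.mem_filter.mpr ⟨Finset.mem_univ _, hv⟩)
    · refine Or.inr (Finset.mem_filter.mpr ⟨Finset.mem_univ _, ?_⟩)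
      have := v.2
      omega
  · have key : ∀ e : Fin (k + 3) × Fin (k + 3), GE k e →
        (e.1 ∈ B0 ∧ e.2 ∈ B0) ∨ (e.1 ∈ B1 ∧ e.2 ∈ B1) := by
      rintro ⟨s, t⟩ ⟨hlt, hor⟩
      have hlt' : (s : ℕ) < t := hlt
      simp only at hor
      by_cases ht : (t : ℕ) ≤ k + 1
      · refine Or.inl ⟨Finset.mem_filter.mpr ⟨Finset.mem_univ _, ?_⟩,
          Finset.mem_filter.mpr ⟨Finset.mem_univ _, ht⟩⟩
        simp only
        omega
      · have ht2 : (t : ℕ) = k + 2 := by
          have := t.2
          omega
        refine Or.inr ⟨Finset.mem_filter.mpr ⟨Finset.mem_univ _, ?_⟩,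
          Finset.mem_filter.mpr ⟨Finset.mem_univ _, ?_⟩⟩
        · simp only
          omega
        · simp only
          omega
    rintro u v ⟨-, i, hi⟩
    have hk2 := key _ ((Fintype.equivFin {e : Fin (k + 3) × Fin (k + 3) // GE k e}).symm i).2
    rcases hi with ⟨e1, e2⟩ | ⟨e1, e2⟩
    · have f1 : ((Fintype.equivFin {e : Fin (k + 3) × Fin (k + 3) // GE k e}).symm i).1.1 = u := e1
      have f2 : ((Fintype.equivFin {e : Fin (k + 3) × Fin (k + 3) // GE k e}).symm i).1.2 = v := e2
      rw [f1, f2] at hk2
      exact hk2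
    · have f1 : ((Fintype.equivFin {e : Fin (k + 3) × Fin (k + 3) // GE k e}).symm i).1.1 = v := e1
      have f2 : ((Fintype.equivFin {e : Fin (k + 3) × Fin (k + 3) // GE k e}).symm i).1.2 = u := e2
      rw [f1, f2] at hk2
      exact hk2.imp And.symm And.symm
  · have hsub : B0 ⊆ (Finset.univ : Finset (Fin (k + 3))).erase (Fin.last (k + 2)) := by
      intro s hs
      refine Finset.mem_erase.mpr ⟨?_, Finset.mem_univ _⟩
      rintro rfl
      have := (Finset.mem_filter.mp hs).2
      simp at this
    refine (Finset.card_le_card hsub).trans ?_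
    rw [Finset.card_erase_of_mem (Finset.mem_univ _)]
    simp
  · have hsub : B1 ⊆ {⟨1, by omega⟩, ⟨2, by omega⟩, ⟨k + 2, by omega⟩} := by
      intro s hs
      rcases (Finset.mem_filter.mp hs).2 with h | h | h
      · simp [Fin.ext_iff, h]
      · simp [Fin.ext_iff, h]
      · simp [Fin.ext_iff, h]
    refine (Finset.card_le_card hsub).trans ((Finset.card_insert_le _ _).trans ?_)
    refine (Nat.add_le_add_right (Finset.card_insert_le _ _) 1).trans ?_
    rw [Finset.card_singleton]
    omega

end Pool.Agent.H73.NP
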